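import Mathlib

/-! Laurent series in one variable `y` over the rationals: supports divisible by `p`,
the dilation `y ↦ y^p`, and the series `(y^b+1)/(y^b-1)`. -/

namespace Pool.Agent.H765.IT

open HahnSeries

noncomputable section

/-- Laurent series over the rationals. -/
abbrev L : Type := LaurentSeries ℚ

/-- The variable. -/
def Y : L := single 1 1

/-- `(y^b+1)/(y^b-1)` in any field. -/
def cot {k : Type*} [Field k] (y : k) (b : ℤ) : k := (y ^ b + 1) / (y ^ b - 1)

theorem cot_neg {k : Type*} [Field k] {y : k} (hy : y ≠ 0) (b : ℤ) :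
    cot y (-b) = - cot y b := by
  unfold cot
  have h : y ^ b ≠ 0 := zpow_ne_zero _ hy
  rw [zpow_neg]
  rcases eq_or_ne (y ^ b) 1 with h1 | h1
  · simp [h1]
  · have h2 : y ^ b - 1 ≠ 0 := sub_ne_zero.mpr h1
    have h3 : (y ^ b)⁻¹ - 1 ≠ 0 := by
      intro h4
      apply h1
      have : (y ^ b)⁻¹ = 1 := by linear_combination h4
      simpa using this
    have h5 : (y ^ b)⁻¹ * y ^ b = 1 := inv_mul_cancel₀ h
    field_simp
    ring

theorem map_cot {k k' : Type*} [Field k] [Field k'] (f : k →+* k') (y : k) (b : ℤ) :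
    f (cot y b) = cot (f y) b := by
  simp [cot, map_div₀, map_zpow₀]

theorem cot_pow {k : Type*} [Field k] (y : k) (p : ℕ) (b : ℤ) :
    cot (y ^ p) b = cot y (p * b) := by
  unfold cot
  rw [zpow_mul, zpow_natCast]

theorem Y_zpow (b : ℤ) : Y ^ b = single b 1 := by
  unfold Y
  exact (RatFunc.single_zpow (F := ℚ) b).symm

theorem Y_ne : Y ≠ 0 := by
  unfold Y
  simp

/-- support in `pℤ` -/
def Supp (p : ℤ) (u : L) : Prop := ∀ n, u.coeff n ≠ 0 → p ∣ n

theorem Supp.coeff_eq {p : ℤ} {u : L} (h : Supp p u) {n : ℤ} (hn : ¬ p ∣ n) : u.coeff n = 0 := by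
  by_contra h'
  exact hn (h n h')

theorem Supp.mono {p P : ℤ} {u : L} (h : Supp p u) (hP : P ∣ p) : Supp P u :=
  fun n hn => hP.trans (h n hn)

theorem Supp.add {p : ℤ} {u v : L} (h : Supp p u) (h' : Supp p v) : Supp p (u + v) := by
  intro n hn
  by_contra hc
  apply hn
  rw [coeff_add, h.coeff_eq hc, h'.coeff_eq hc, add_zero]

theorem Supp.neg {p : ℤ} {u : L} (h : Supp p u) : Supp p (-u) := by
  intro n hn
  by_contra hc
  apply hn
  rw [coeff_neg, h.coeff_eq hc, neg_zero]

theorem Supp.sub {p : ℤ} {u v : L} (h : Supp p u) (h' : Supp p v) : Supp p (u - v) := by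
  rw [sub_eq_add_neg]; exact h.add h'.neg

theorem coeff_mul_ne_zero {u v : L} {n : ℤ} (h : (u * v).coeff n ≠ 0) :
    ∃ i j, i + j = n ∧ u.coeff i ≠ 0 ∧ v.coeff j ≠ 0 := by
  rw [HahnSeries.coeff_mul] at h
  obtain ⟨⟨i, j⟩, hij, hne⟩ := Finset.exists_ne_zero_of_sum_ne_zero h
  simp only at hne
  refine ⟨i, j, ?_, left_ne_zero_of_mul hne, right_ne_zero_of_mul hne⟩
  simp at hij
  exact hij.2.2

theorem Supp.mul {p : ℤ} {u v : L} (h : Supp p u) (h' : Supp p v) : Supp p (u * v) := by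
  intro n hn
  obtain ⟨i, j, hij, hi, hj⟩ := coeff_mul_ne_zero hn
  rw [← hij]
  exact dvd_add (h i hi) (h' j hj)

/-- the constants -/
def cst : ℚ →+* L := HahnSeries.C

theorem coeff_cst_mul (c : ℚ) (u : L) (n : ℤ) : (cst c * u).coeff n = c * u.coeff n := by
  rw [cst, C_mul_eq_smul, coeff_smul, smul_eq_mul]

theorem coeff_cst (c : ℚ) (n : ℤ) : (cst c).coeff n = if n = 0 then c else 0 := by
  rw [cst, C_apply]
  split_ifs with h
  · rw [h, coeff_single_same]
  · rw [coeff_single_of_ne h]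

theorem Supp.cst (p : ℤ) (c : ℚ) : Supp p (cst c) := by
  intro n hn
  rw [coeff_cst] at hn
  split_ifs at hn with h
  · rw [h]; exact dvd_zero _
  · exact absurd rfl hn

/-- dilation `y ↦ y^p` -/
def dil (p : ℕ) : L →+* L :=
  if hp : 0 < p then
    embDomainRingHom ((AddMonoidHom.mulLeft (p : ℤ)))
      (fun a b h => by
        have : (p : ℤ) * a = p * b := h
        exact mul_left_cancel₀ (by positivity) this)
      (fun a b => by
        change (p : ℤ) * a ≤ p * b ↔ a ≤ b
        exact mul_le_mul_iff_right₀ (by positivity))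
  else RingHom.id L

theorem coeff_dil_mul {p : ℕ} (hp : 0 < p) (u : L) (n : ℤ) :
    (dil p u).coeff (p * n) = u.coeff n := by
  rw [dil, dif_pos hp]
  exact embDomain_mk_coeff (f := fun n : ℤ => (p : ℤ) * n) _ _

theorem supp_dil {p : ℕ} (hp : 0 < p) (u : L) : Supp p (dil p u) := by
  intro n hn
  by_contra hc
  apply hn
  rw [dil, dif_pos hp]
  apply embDomain_of_notMem_range
  rintro ⟨m, hm⟩
  exact hc ⟨m, hm.symm⟩

theorem dil_injective {p : ℕ} (hp : 0 < p) : Function.Injective (dil p) := by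
  intro u v h
  ext n
  rw [← coeff_dil_mul hp u n, ← coeff_dil_mul hp v n, h]

theorem dil_Y {p : ℕ} (hp : 0 < p) : dil p Y = Y ^ p := by
  have h1 : (Y ^ p : L) = single (p : ℤ) 1 := by
    rw [← zpow_natCast, Y_zpow]
  rw [h1, dil, dif_pos hp, Y]
  change embDomain _ (single 1 1) = _
  rw [embDomain_single]
  simp

theorem dil_cot {p : ℕ} (hp : 0 < p) (b : ℤ) : dil p (cot Y b) = cot Y (p * b) := by
  rw [map_cot, dil_Y hp, cot_pow]

theorem exists_dil {p : ℕ} (hp : 0 < p) {u : L} (h : Supp p u) : ∃ v, u = dil p v := by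
  refine ⟨HahnSeries.ofSuppBddBelow (fun n => u.coeff (p * n)) ?_, ?_⟩
  · obtain ⟨m, hm⟩ : ∃ m : ℤ, ∀ n, u.coeff n ≠ 0 → m ≤ n :=
      ⟨u.order, fun n hn => order_le_of_coeff_ne_zero hn⟩
    refine ⟨- |m|, ?_⟩
    intro n hn
    have h1 : m ≤ p * n := hm _ hn
    by_contra hc
    push Not at hc
    have h2 : (p : ℤ) * n ≤ n := by
      have : n < 0 := lt_of_lt_of_le hc (by simp)
      have h3 : (1 : ℤ) ≤ p := by exact_mod_cast hp
      nlinarith
    have h4 : -|m| ≤ m := neg_abs_le m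
    omega
  · ext n
    by_cases hn : (p : ℤ) ∣ n
    · obtain ⟨k, rfl⟩ := hn
      rw [coeff_dil_mul hp]
      rfl
    · rw [h.coeff_eq hn, (supp_dil hp _).coeff_eq hn]

theorem supp_of_dil {p : ℕ} (hp : 0 < p) {p' : ℤ} (hc : IsCoprime (p' : ℤ) p) {u : L}
    (h : Supp p' (dil p u)) : Supp p' u := by
  intro n hn
  rw [← coeff_dil_mul hp] at hn
  exact hc.dvd_of_dvd_mul_left (h _ hn)

/-! ### The series `(y^b+1)/(y^b-1)` for `b > 0` -/

/-- explicit expansion -/
def cs (b : ℤ) : L :=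
  HahnSeries.ofSuppBddBelow
    (fun n => if n < 0 then (0 : ℚ) else if n = 0 then -1 else if b ∣ n then -2 else 0)
    ⟨0, fun n hn => by
      by_contra hc
      push Not at hc
      exact hn (by simp [hc])⟩

theorem coeff_cs (b n : ℤ) : (cs b).coeff n =
    if n < 0 then (0 : ℚ) else if n = 0 then -1 else if b ∣ n then -2 else 0 := rfl

theorem cs_eq {b : ℤ} (hb : 0 < b) : (Y ^ b - 1) * cs b = Y ^ b + 1 := by
  rw [Y_zpow]
  ext n
  rw [sub_mul, one_mul, coeff_sub, coeff_add, coeff_single_mul, one_mul, coeff_cs, coeff_cs,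
    coeff_one]
  rcases lt_trichotomy n 0 with h | h | h
  · rw [coeff_single_of_ne (by omega)]
    simp [h, h.ne, show n - b < 0 by omega]
  · subst h
    rw [coeff_single_of_ne (by omega)]
    simp [hb]
  · rw [if_neg (show ¬ n < 0 by omega), if_neg (show ¬ n = 0 by omega),
      if_neg (show ¬ n = 0 by omega)]
    rcases lt_trichotomy n b with h1 | h1 | h1
    · have hnb : ¬ b ∣ n := fun hd => by
        have := Int.le_of_dvd h hd
        omega
      rw [coeff_single_of_ne (by omega)]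
      simp [h1, hnb]
    · subst h1
      rw [coeff_single_same]
      simp
      norm_num
    · have : b ∣ n - b ↔ b ∣ n := by
        constructor
        · intro hd
          have := dvd_add hd (dvd_refl b)
          simpa using this
        · intro hd
          exact dvd_sub hd (dvd_refl b)
      rw [coeff_single_of_ne (by omega), if_neg (show ¬ n - b < 0 by omega),
        if_neg (show ¬ n - b = 0 by omega)]
      simp [this]

theorem Y_zpow_ne_one {b : ℤ} (hb : b ≠ 0) : (Y ^ b : L) - 1 ≠ 0 := by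
  rw [Y_zpow]
  intro h
  have := congrArg (fun u : L => u.coeff 0) h
  simp [coeff_single_of_ne hb.symm] at this

theorem cot_eq_cs {b : ℤ} (hb : 0 < b) : cot Y b = cs b := by
  unfold cot
  rw [div_eq_iff (Y_zpow_ne_one hb.ne'), mul_comm, cs_eq hb]

theorem cot_mul {b : ℤ} (hb : b ≠ 0) : (Y ^ b - 1) * cot Y b = Y ^ b + 1 := by
  unfold cot
  rw [mul_div_cancel₀ _ (Y_zpow_ne_one hb)]

theorem cot_abs (b : ℤ) : cot Y b = cst b.sign * cot Y |b| := by
  rcases lt_trichotomy b 0 with h | h | h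
  · rw [Int.sign_eq_neg_one_of_neg h, abs_of_neg h, cot_neg Y_ne]
    simp
  · subst h
    simp [cot]
  · rw [Int.sign_eq_one_of_pos h, abs_of_pos h]
    simp

theorem mul_cot_abs (b : ℤ) : cst b * cot Y b = cst ((|b| : ℤ) : ℚ) * cot Y |b| := by
  rw [cot_abs b, ← mul_assoc, ← map_mul]
  congr 2
  have h : b * b.sign = |b| := by rw [mul_comm, Int.sign_mul_self_eq_abs]
  rw [← Int.cast_mul, h]

theorem supp_cot (b : ℤ) : Supp b (cot Y b) := by
  rcases eq_or_ne b 0 with h | h
  · subst h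
    intro n hn
    simp [cot] at hn
  rw [cot_abs]
  refine (Supp.cst _ _).mul ?_
  have hb : 0 < |b| := abs_pos.mpr h
  rw [cot_eq_cs hb]
  intro n hn
  rw [coeff_cs] at hn
  split_ifs at hn with h1 h2 h3
  · exact absurd rfl hn
  · rw [h2]; exact dvd_zero _
  · exact (abs_dvd _ _).mp h3
  · exact absurd rfl hn

theorem coeff_zero_cot {b : ℤ} (hb : b ≠ 0) : (cot Y b).coeff 0 = - b.sign := by
  rw [cot_abs, cot_eq_cs (abs_pos.mpr hb), coeff_cst_mul, coeff_cs]
  simp

end

end Pool.Agent.H765.IT
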