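import Mathlib
import Pool.Agent.H765.IT.Comb1

/-! The Euler derivation on Laurent series. -/

namespace Pool.Agent.H765.IT

open HahnSeries

noncomputable section

/-- `y d/dy` -/
def eu (u : L) : L :=
  HahnSeries.ofSuppBddBelow (fun n => (n : ℚ) * u.coeff n)
    ⟨u.order, fun n hn => by
      apply order_le_of_coeff_ne_zero
      intro h
      exact hn (by simp [h])⟩

theorem coeff_eu (u : L) (n : ℤ) : (eu u).coeff n = n * u.coeff n := rfl

theorem eu_add (u v : L) : eu (u + v) = eu u + eu v := by
  ext n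
  rw [coeff_add, coeff_eu, coeff_eu, coeff_eu, coeff_add, mul_add]

theorem eu_sub (u v : L) : eu (u - v) = eu u - eu v := by
  ext n
  rw [coeff_sub, coeff_eu, coeff_eu, coeff_eu, coeff_sub, mul_sub]

theorem eu_mul (u v : L) : eu (u * v) = eu u * v + u * eu v := by
  ext n
  rw [coeff_add, coeff_eu,
    coeff_mul_left' (x := eu u) (y := v) (s := u.support) u.isPWO_support
      (by
        intro i hi
        rw [mem_support] at hi ⊢
        intro h0
        exact hi (by rw [coeff_eu, h0, mul_zero])),
    coeff_mul_right' (x := u) (y := eu v) (s := v.support) v.isPWO_support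
      (by
        intro i hi
        rw [mem_support] at hi ⊢
        intro h0
        exact hi (by rw [coeff_eu, h0, mul_zero])),
    coeff_mul, Finset.mul_sum, ← Finset.sum_add_distrib]
  apply Finset.sum_congr rfl
  rintro ⟨i, j⟩ hij
  simp at hij
  obtain ⟨_, _, h⟩ := hij
  simp only [coeff_eu]
  rw [← h]
  push_cast
  ring

theorem eu_cst (c : ℚ) : eu (cst c) = 0 := by
  ext n
  rw [coeff_eu, coeff_cst]
  split_ifs with h
  · rw [h]; simp
  · simp

theorem eu_one : eu 1 = 0 := by
  have := eu_cst 1
  rwa [map_one] at this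

theorem eu_Y_zpow (b : ℤ) : eu (Y ^ b) = cst b * Y ^ b := by
  rw [Y_zpow]
  ext n
  rw [coeff_eu, coeff_cst_mul]
  by_cases h : n = b
  · rw [h]
  · rw [coeff_single_of_ne h]; simp

/-- logarithmic derivative -/
def ld (u : L) : L := eu u / u

theorem ld_mul {u v : L} (hu : u ≠ 0) (hv : v ≠ 0) : ld (u * v) = ld u + ld v := by
  unfold ld
  rw [eu_mul]
  field_simp

/-- a product coefficient with a single contribution -/
theorem coeff_mul_single' {u v : L} {a b : ℤ}
    (h : ∀ i j, i + j = a + b → u.coeff i ≠ 0 → v.coeff j ≠ 0 → i = a ∧ j = b) :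
    (u * v).coeff (a + b) = u.coeff a * v.coeff b := by
  rw [coeff_mul]
  by_cases hab : u.coeff a ≠ 0 ∧ v.coeff b ≠ 0
  · rw [Finset.sum_eq_single (a, b)]
    · rintro ⟨i, j⟩ hij hne
      simp at hij
      obtain ⟨h1, h2, h3⟩ := hij
      obtain ⟨rfl, rfl⟩ := h i j h3 h1 h2
      exact absurd rfl hne
    · intro hni
      exact absurd (by simp [hab.1, hab.2]) hni
  · have h0 : u.coeff a * v.coeff b = 0 := by
      by_contra h1
      exact hab ⟨left_ne_zero_of_mul h1, right_ne_zero_of_mul h1⟩
    rw [h0]
    apply Finset.sum_eq_zero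
    rintro ⟨i, j⟩ hij
    simp at hij
    obtain ⟨h1, h2, h3⟩ := hij
    obtain ⟨rfl, rfl⟩ := h i j h3 h1 h2
    exact h0

/-- a series whose logarithmic derivative has support in `Pℤ` is a monomial times a series
with support in `Pℤ` -/
theorem supp_of_ld {P : ℤ} {G : L} (hG : G ≠ 0) (h : Supp P (ld G)) :
    ∀ n, G.coeff n ≠ 0 → P ∣ n - G.order := by
  have hU : eu G = G * ld G := by
    unfold ld
    field_simp
  have hord : ∀ j, (ld G).coeff j ≠ 0 → 0 ≤ j := by
    intro j hj
    have hj' : (ld G).order ≤ j := order_le_of_coeff_ne_zero hj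
    have hne : ld G ≠ 0 := by
      intro h0; rw [h0] at hj; exact hj rfl
    have hne' : eu G ≠ 0 := by
      intro h0; apply hne; unfold ld; rw [h0, zero_div]
    have h1 : (eu G).order = G.order + (ld G).order := by
      rw [hU]
      exact order_mul hG hne
    have h2 : G.order ≤ (eu G).order := by
      apply order_le_of_coeff_ne_zero
      have h3 : (eu G).coeff (eu G).order ≠ 0 := by
        intro h0; exact hne' (coeff_order_eq_zero.mp h0)
      intro h0
      exact h3 (by rw [coeff_eu, h0, mul_zero])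
    omega
  by_contra hcon
  push Not at hcon
  -- minimal bad exponent
  obtain ⟨n0, hn0, hn0'⟩ := hcon
  have hlow : ∀ n, G.coeff n ≠ 0 → G.order ≤ n := fun n hn => order_le_of_coeff_ne_zero hn
  let bad : ℕ → Prop := fun k => G.coeff (G.order + k) ≠ 0 ∧ ¬ P ∣ (k : ℤ)
  have hbad : ∃ k, bad k := by
    refine ⟨(n0 - G.order).toNat, ?_, ?_⟩
    · have : G.order + ((n0 - G.order).toNat : ℤ) = n0 := by
        have := hlow n0 hn0
        omega
      rw [this]; exact hn0
    · have : ((n0 - G.order).toNat : ℤ) = n0 - G.order := by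
        have := hlow n0 hn0
        omega
      rw [this]; exact hn0'
  classical
  let k := Nat.find hbad
  obtain ⟨hk1, hk2⟩ := Nat.find_spec hbad
  have hmin : ∀ m < k, ¬ bad m := fun m hm => Nat.find_min hbad hm
  change G.coeff (G.order + (k : ℤ)) ≠ 0 at hk1
  change ¬ P ∣ (k : ℤ) at hk2
  have e1 : (G * ld G).coeff (G.order + k + 0) = G.coeff (G.order + k) * (ld G).coeff 0 := by
    apply coeff_mul_single'
    intro i j hij hi hj
    have hj0 := hord j hj
    have hPj := h j hj
    have hi0 := hlow i hi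
    rcases lt_or_eq_of_le hj0 with h1 | h1
    · exfalso
      have hlt : (i - G.order).toNat < k := by omega
      have hnb := hmin _ hlt
      apply hk2
      have h2 : ((i - G.order).toNat : ℤ) = i - G.order := by omega
      have h3 : P ∣ i - G.order := by
        by_contra h4
        apply hnb
        refine ⟨?_, ?_⟩
        · rw [h2]
          have : G.order + (i - G.order) = i := by ring
          rw [this]; exact hi
        · rw [h2]; exact h4
      have h5 : (k : ℤ) = (i - G.order) + j := by omega
      rw [h5]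
      exact dvd_add h3 hPj
    · omega
  have e2 : (G * ld G).coeff (G.order + 0) = G.coeff G.order * (ld G).coeff 0 := by
    apply coeff_mul_single'
    intro i j hij hi hj
    have hj0 := hord j hj
    have hi0 := hlow i hi
    omega
  rw [← hU, add_zero, coeff_eu] at e1 e2
  have hG0 : G.coeff G.order ≠ 0 := fun h0 => hG (coeff_order_eq_zero.mp h0)
  have f1 : ((G.order + (k : ℤ) : ℤ) : ℚ) = (ld G).coeff 0 := by
    rw [mul_comm] at e1
    exact mul_left_cancel₀ hk1 e1
  have f2 : ((G.order : ℤ) : ℚ) = (ld G).coeff 0 := by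
    rw [mul_comm] at e2
    exact mul_left_cancel₀ hG0 e2
  rw [← f2] at f1
  have f3 : G.order + (k : ℤ) = G.order := by exact_mod_cast f1
  have f4 : (k : ℤ) = 0 := by omega
  rw [f4] at hk2
  exact hk2 (dvd_zero _)

theorem Y_one_sub_ne : (Y : L) - 1 ≠ 0 := by
  have := Y_zpow_ne_one one_ne_zero
  rwa [zpow_one] at this

theorem eu_Y_sub {b : ℤ} : eu (Y ^ b - 1) = cst b * Y ^ b := by
  rw [eu_sub, eu_one, eu_Y_zpow, sub_zero]

/-- `b (y^b+1)/(y^b-1) = -b + 2 (log-derivative of y^b - 1)` -/
theorem mul_cot_eq {b : ℤ} (hb : b ≠ 0) :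
    cst b * cot Y b = - cst b + 2 * ld (Y ^ b - 1) := by
  have h := Y_zpow_ne_one hb
  unfold ld cot
  rw [eu_Y_sub]
  field_simp
  ring

end

end Pool.Agent.H765.IT
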