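import Mathlib
import Pool.Agent.H765.IT.Comb1

/-! The comparison lemma for two cable-like structures. -/

namespace Pool.Agent.H765.IT

open HahnSeries

noncomputable section

/-- The pair `d = (λ, r)` looks like a `(P, b)`-cable with constant `κ`. -/
structure IsType (P : ℕ) (b : ℤ) (κ : ℚ) (d : L × L) : Prop where
  two_le : 2 ≤ P
  ne : b ≠ 0
  cop : IsCoprime (P : ℤ) b
  suppM : Supp P (d.1 - cst b * cot Y b)
  suppR : Supp P (d.2 - cst κ * (cot Y b * (d.1 - cst b * cot Y b)))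

theorem not_dvd_of_cop {P : ℕ} {b : ℤ} (hP : 2 ≤ P) (h : IsCoprime (P : ℤ) b) :
    ¬ (P : ℤ) ∣ b := by
  intro hd
  have h1 : IsUnit (P : ℤ) := h.isUnit_of_dvd' dvd_rfl hd
  rw [Int.isUnit_iff] at h1
  omega

theorem coeff_cs_mul_cs_ne {β β' : ℤ} (hβ : 0 < β) (hβ' : 0 < β') :
    (cs β * cs β').coeff (β + β') ≠ 0 := by
  have hneg : ∀ (b n : ℤ), (cs b).coeff n ≤ 0 := by
    intro b n
    rw [coeff_cs]
    split_ifs <;> norm_num
  have h1 : (cs β).coeff β = -2 := by
    rw [coeff_cs]; simp [hβ.ne', not_lt.mpr hβ.le]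
  have h2 : (cs β').coeff β' = -2 := by
    rw [coeff_cs]; simp [hβ'.ne', not_lt.mpr hβ'.le]
  apply ne_of_gt
  rw [HahnSeries.coeff_mul]
  apply Finset.sum_pos'
  · intro ij _
    exact mul_nonneg_of_nonpos_of_nonpos (hneg _ _) (hneg _ _)
  · refine ⟨(β, β'), ?_, ?_⟩
    · simp [h1, h2]
    · simp [h1, h2]

theorem coeff_cot_mul {β : ℤ} (hβ : 0 < β) {M : L} {P : ℕ} (hM : Supp P M)
    (hP : ¬ (P : ℤ) ∣ β) (hM0 : M ≠ 0) :
    (cot Y β * M).coeff (M.order + β) ≠ 0 := by
  have hlead : M.coeff M.order ≠ 0 := by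
    exact fun h0 => hM0 (coeff_order_eq_zero.mp h0)
  have key : (Y ^ β - 1) * (cot Y β * M) = (Y ^ β + 1) * M := by
    rw [← mul_assoc, cot_mul hβ.ne']
  rw [Y_zpow, sub_mul, add_mul, one_mul, one_mul] at key
  have hk : ∀ n, (cot Y β * M).coeff (n - β) - (cot Y β * M).coeff n
      = M.coeff (n - β) + M.coeff n := by
    intro n
    have := congrArg (fun u : L => u.coeff n) key
    simpa [coeff_sub, coeff_add, coeff_single_mul] using this
  have h1 := hk M.order
  have h2 := hk (M.order + β)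
  have h3 : (cot Y β * M).coeff (M.order - β) = 0 := by
    by_contra hne
    obtain ⟨i, j, hij, hi, hj⟩ := coeff_mul_ne_zero hne
    rw [cot_eq_cs hβ, coeff_cs] at hi
    have hj' : M.order ≤ j := order_le_of_coeff_ne_zero hj
    have hi' : 0 ≤ i := by
      by_contra hc
      push Not at hc
      exact hi (by simp [hc])
    omega
  have h4 : M.coeff (M.order - β) = 0 := by
    apply coeff_eq_zero_of_lt_order
    omega
  have h5 : M.coeff (M.order + β) = 0 := by
    apply hM.coeff_eq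
    intro hd
    apply hP
    have := dvd_sub hd (hM _ hlead)
    simpa using this
  rw [add_sub_cancel_right] at h2
  rw [h3, h4] at h1
  rw [h5] at h2
  intro h6
  rw [h6] at h2
  apply hlead
  linarith

variable {P P' : ℕ} {b b' : ℤ} {κ κ' : ℚ} {d : L × L}

theorem IsType.not_dvd (h : IsType P b κ d) : ¬ (P : ℤ) ∣ b := not_dvd_of_cop h.two_le h.cop

/-- absolute value form -/
theorem IsType.M_abs (_h : IsType P b κ d) :
    d.1 - cst b * cot Y b = d.1 - cst ((|b| : ℤ) : ℚ) * cot Y |b| := by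
  rw [mul_cot_abs]

theorem IsType.R_abs (h : IsType P b κ d) :
    Supp P (d.2 - cst (κ * b.sign) * (cot Y |b| * (d.1 - cst ((|b| : ℤ) : ℚ) * cot Y |b|))) := by
  have := h.suppR
  rw [h.M_abs, cot_abs b] at this
  rw [map_mul]
  convert this using 2
  ring

theorem lemmaB_lt (h : IsType P b κ d) (h' : IsType P' b' κ' d) (hlt : |b| < |b'|) :
    (P' : ℤ) ∣ b ∧ (P : ℤ) ∣ b' ∧ κ * b' = κ' * b := by
  have hM := h.suppM
  have hM' := h'.suppM
  rw [h.M_abs] at hM
  rw [h'.M_abs] at hM'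
  have hR := h.R_abs
  have hR' := h'.R_abs
  have hβ : 0 < |b| := abs_pos.mpr h.ne
  have hβ' : 0 < |b'| := abs_pos.mpr h'.ne
  have hnd : ¬ (P : ℤ) ∣ |b| := by rw [dvd_abs]; exact h.not_dvd
  have hnd' : ¬ (P' : ℤ) ∣ |b'| := by rw [dvd_abs]; exact h'.not_dvd
  rw [cot_eq_cs hβ] at hM hR
  rw [cot_eq_cs hβ'] at hM' hR'
  have hbs : (b : ℚ) = b.sign * ((|b| : ℤ) : ℚ) := by
    rw [← Int.cast_mul, Int.sign_mul_abs]
  have hbs' : (b' : ℚ) = b'.sign * ((|b'| : ℤ) : ℚ) := by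
    rw [← Int.cast_mul, Int.sign_mul_abs]
  have hsq : ((b.sign : ℤ) : ℚ) * b.sign = 1 := by
    rcases lt_or_gt_of_ne h.ne with e | e
    · rw [Int.sign_eq_neg_one_of_neg e]; norm_num
    · rw [Int.sign_eq_one_of_pos e]; norm_num
  have hsq' : ((b'.sign : ℤ) : ℚ) * b'.sign = 1 := by
    rcases lt_or_gt_of_ne h'.ne with e | e
    · rw [Int.sign_eq_neg_one_of_neg e]; norm_num
    · rw [Int.sign_eq_one_of_pos e]; norm_num
  generalize hβe : |b| = β at *
  generalize hβe' : |b'| = β' at *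
  -- first divisibility
  have c1 : d.1.coeff β = -2 * β := by
    have := hM.coeff_eq hnd
    rw [coeff_sub, coeff_cst_mul, coeff_cs, if_neg (by omega), if_neg (by omega),
      if_pos (dvd_refl _)] at this
    linarith
  have c2 : d.1.coeff β' = -2 * β' := by
    have := hM'.coeff_eq hnd'
    rw [coeff_sub, coeff_cst_mul, coeff_cs, if_neg (by omega), if_neg (by omega),
      if_pos (dvd_refl _)] at this
    linarith
  have hβQ : (0 : ℚ) < β := by exact_mod_cast hβ
  have hβQ' : (0 : ℚ) < β' := by exact_mod_cast hβ'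
  have hltQ : (β : ℚ) < β' := by exact_mod_cast hlt
  have d1 : (P' : ℤ) ∣ β := by
    apply hM'
    rw [coeff_sub, coeff_cst_mul, coeff_cs, if_neg (by omega), if_neg (by omega),
      if_neg (fun hd => by have := Int.le_of_dvd hβ hd; omega), c1]
    intro h0
    linarith
  have d2 : (P : ℤ) ∣ β' := by
    apply hM
    rw [coeff_sub, coeff_cst_mul, coeff_cs, if_neg (by omega), if_neg (by omega), c2]
    intro h0
    split_ifs at h0 <;> linarith
  have d1b : (P' : ℤ) ∣ b := by rw [← dvd_abs, hβe]; exact d1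
  have d2b : (P : ℤ) ∣ b' := by rw [← dvd_abs, hβe']; exact d2
  refine ⟨d1b, d2b, ?_⟩
  -- supports
  have sβ : Supp β (cs β) := by rw [← cot_eq_cs hβ]; exact supp_cot β
  have sβ' : Supp β' (cs β') := by rw [← cot_eq_cs hβ']; exact supp_cot β'
  set N : L := d.1 - cst β * cs β - cst β' * cs β' with hN
  have sN : Supp P N := hM.sub ((Supp.cst _ _).mul (sβ'.mono d2))
  have sN' : Supp P' N := by
    have : N = (d.1 - cst β' * cs β') - cst β * cs β := by rw [hN]; ring
    rw [this]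
    exact hM'.sub ((Supp.cst _ _).mul (sβ.mono d1))
  have e1 : d.1 - cst β * cs β = N + cst β' * cs β' := by rw [hN]; ring
  have e2 : d.1 - cst β' * cs β' = N + cst β * cs β := by rw [hN]; ring
  have nd1 : ¬ (P : ℤ) ∣ β + β' := fun hd => hnd ((Int.dvd_iff_dvd_of_dvd_add hd).mpr d2)
  have nd2 : ¬ (P' : ℤ) ∣ β + β' := fun hd => hnd' ((Int.dvd_iff_dvd_of_dvd_add hd).mp d1)
  have r1 := hR.coeff_eq nd1
  have r2 := hR'.coeff_eq nd2
  rw [e1, mul_add, coeff_sub, coeff_cst_mul, coeff_add] at r1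
  rw [e2, mul_add, coeff_sub, coeff_cst_mul, coeff_add] at r2
  have z1 : (cs β * N).coeff (β + β') = 0 := ((sβ.mono d1).mul sN').coeff_eq nd2
  have z2 : (cs β' * N).coeff (β + β') = 0 := ((sβ'.mono d2).mul sN).coeff_eq nd1
  have f1 : cs β * (cst β' * cs β') = cst β' * (cs β * cs β') := by ring
  have f2 : cs β' * (cst β * cs β) = cst β * (cs β * cs β') := by ring
  rw [z1, f1, coeff_cst_mul] at r1
  rw [z2, f2, coeff_cst_mul] at r2
  have hZ := coeff_cs_mul_cs_ne hβ hβ'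
  set Z := (cs β * cs β').coeff (β + β') with hZdef
  have key : κ * b.sign * β' = κ' * b'.sign * β := by
    have : (κ * b.sign * β' - κ' * b'.sign * β) * Z = 0 := by linarith
    rcases mul_eq_zero.mp this with h0 | h0
    · linarith
    · exact absurd h0 hZ
  rw [hbs, hbs']
  calc κ * (b'.sign * (β' : ℚ)) = (κ * b.sign * β') * (b.sign * b'.sign) := by
        linear_combination (-(κ * b'.sign * β')) * hsq
    _ = (κ' * b'.sign * β) * (b.sign * b'.sign) := by rw [key]
    _ = κ' * (b.sign * (β : ℚ)) := by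
        linear_combination (κ' * b.sign * β) * hsq'

theorem lemmaB_ne (h : IsType P b κ d) (h' : IsType P' b' κ' d) (hne : |b| ≠ |b'|) :
    (P' : ℤ) ∣ b ∧ (P : ℤ) ∣ b' ∧ κ * b' = κ' * b := by
  rcases lt_or_gt_of_ne hne with hlt | hlt
  · exact lemmaB_lt h h' hlt
  · obtain ⟨h1, h2, h3⟩ := lemmaB_lt h' h hlt
    exact ⟨h2, h1, h3.symm⟩

theorem lemmaB_eq (h : IsType P b κ d) (h' : IsType P' b' κ' d) (heq : |b| = |b'|)
    (hM0 : d.1 - cst b * cot Y b ≠ 0) : κ * b.sign = κ' * b'.sign := by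
  have hM := h.suppM
  have hM' := h'.suppM
  have hnd : ¬ (P : ℤ) ∣ |b| := by rw [dvd_abs]; exact h.not_dvd
  have hnd' : ¬ (P' : ℤ) ∣ |b'| := by rw [dvd_abs]; exact h'.not_dvd
  have hβ : 0 < |b| := abs_pos.mpr h.ne
  rw [h.M_abs] at hM hM0
  rw [h'.M_abs] at hM'
  have hR := h.R_abs
  have hR' := h'.R_abs
  rw [← heq] at hM' hR' hnd'
  generalize |b| = β at *
  set M : L := d.1 - cst β * cot Y β with hMdef
  have hlead : M.coeff M.order ≠ 0 := by
    exact fun h0 => hM0 (coeff_order_eq_zero.mp h0)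
  have nd1 : ¬ (P : ℤ) ∣ M.order + β :=
    fun hd => hnd ((Int.dvd_iff_dvd_of_dvd_add hd).mp (hM _ hlead))
  have nd2 : ¬ (P' : ℤ) ∣ M.order + β :=
    fun hd => hnd' ((Int.dvd_iff_dvd_of_dvd_add hd).mp (hM' _ hlead))
  have r1 := hR.coeff_eq nd1
  have r2 := hR'.coeff_eq nd2
  rw [coeff_sub, coeff_cst_mul] at r1 r2
  have hZ := coeff_cot_mul hβ hM hnd hM0
  have : (κ * b.sign - κ' * b'.sign) * (cot Y β * M).coeff (M.order + β) = 0 := by linarith
  rcases mul_eq_zero.mp this with h0 | h0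
  · linarith
  · exact absurd h0 hZ

end

end Pool.Agent.H765.IT
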