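import Mathlib
import Pool.Agent.H765.IT.Comb2

/-! Iterated cable structures are determined by the pair of Laurent series. -/

namespace Pool.Agent.H765.IT

open HahnSeries

noncomputable section

/-- cabling on pairs of Laurent series -/
def stepL (p : ℕ) (q : ℤ) (d : L × L) : L × L :=
  (cst q * cot Y q - cst (p * q) * cot Y (p * q) + cst p * dil p d.1,
   dil p d.2 + (cot Y q - cst p * cot Y (p * q)) * (dil p d.1 - cst q * cot Y (p * q)))

theorem stepL_M (p : ℕ) (q : ℤ) (d : L × L) :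
    (stepL p q d).1 - cst q * cot Y q = cst p * (dil p d.1 - cst q * cot Y (p * q)) := by
  simp only [stepL, map_mul]
  ring

theorem stepL_type {p : ℕ} {q : ℤ} (hp : 2 ≤ p) (hq : q ≠ 0) (hc : IsCoprime (p : ℤ) q)
    (d : L × L) : IsType p q (1 / p) (stepL p q d) where
  two_le := hp
  ne := hq
  cop := hc
  suppM := by
    rw [stepL_M]
    exact (Supp.cst _ _).mul ((supp_dil (by omega) _).sub
      ((Supp.cst _ _).mul ((supp_cot _).mono (dvd_mul_right _ _))))
  suppR := by
    have h0 : cst (1 / p) * cst p = 1 := by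
      rw [← map_mul, one_div, inv_mul_cancel₀ (by positivity), map_one]
    rw [stepL_M]
    have : (stepL p q d).2 - cst (1 / p) * (cot Y q *
        (cst p * (dil p d.1 - cst q * cot Y (p * q)))) =
        dil p d.2 - cst p * (cot Y (p * q) * (dil p d.1 - cst q * cot Y (p * q))) := by
      simp only [stepL]
      linear_combination (-(cot Y q * (dil p d.1 - cst q * cot Y (p * q)))) * h0
    rw [this]
    have s1 : Supp p (cot Y (p * q)) := (supp_cot _).mono (dvd_mul_right _ _)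
    exact (supp_dil (by omega) _).sub ((Supp.cst _ _).mul (s1.mul
      ((supp_dil (by omega) _).sub ((Supp.cst _ _).mul s1))))

theorem coeff_zero_dil {p : ℕ} (hp : 0 < p) (u : L) : (dil p u).coeff 0 = u.coeff 0 := by
  have := coeff_dil_mul hp u 0
  rwa [mul_zero] at this

theorem coeff_zero_mul_cot {q : ℤ} (hq : q ≠ 0) (c : ℚ) :
    (cst c * cot Y q).coeff 0 = - (c * q.sign) := by
  rw [coeff_cst_mul, coeff_zero_cot hq]; ring

theorem sign_natCast_mul {p : ℕ} (hp : 0 < p) (q : ℤ) : ((p : ℤ) * q).sign = q.sign := by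
  rw [Int.sign_mul, Int.sign_natCast_of_ne_zero hp.ne', one_mul]

theorem mul_sign_cast (q : ℤ) : (q : ℚ) * (q.sign : ℚ) = ((|q| : ℤ) : ℚ) := by
  rw [← Int.cast_mul, mul_comm, Int.sign_mul_self_eq_abs]

theorem gamma_step {p : ℕ} {q : ℤ} (hp : 0 < p) (hq : q ≠ 0) (d : L × L) :
    (stepL p q d).1.coeff 0 = (p - 1) * ((|q| : ℤ) : ℚ) + p * d.1.coeff 0 := by
  have hpq : (p : ℤ) * q ≠ 0 := mul_ne_zero (by exact_mod_cast hp.ne') hq
  simp only [stepL]
  rw [coeff_add, coeff_sub, coeff_zero_mul_cot hq, coeff_zero_mul_cot hpq, coeff_cst_mul,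
    coeff_zero_dil hp, sign_natCast_mul hp, ← mul_sign_cast]
  ring

theorem coeff_zero_M {p : ℕ} {q : ℤ} (hp : 0 < p) (hq : q ≠ 0) (d : L × L) :
    ((stepL p q d).1 - cst q * cot Y q).coeff 0 = p * (d.1.coeff 0 + ((|q| : ℤ) : ℚ)) := by
  rw [coeff_sub, gamma_step hp hq, coeff_zero_mul_cot hq, mul_sign_cast]
  ring

theorem M_ne_zero {p : ℕ} {q : ℤ} (hp : 0 < p) (hq : q ≠ 0) {d : L × L}
    (hg : d.1.coeff 0 + ((|q| : ℤ) : ℚ) ≠ 0) :
    (stepL p q d).1 - cst q * cot Y q ≠ 0 := by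
  intro h0
  have h1 := coeff_zero_M hp hq d
  rw [h0, coeff_zero] at h1
  have : (p : ℚ) ≠ 0 := by exact_mod_cast hp.ne'
  rcases mul_eq_zero.mp h1.symm with h2 | h2
  · exact this h2
  · exact hg h2

theorem lemmaA {p p' : ℕ} {q q' : ℤ} {d d' : L × L} (hp : 2 ≤ p) (hp' : 2 ≤ p')
    (hq : q ≠ 0) (hq' : q' ≠ 0) (hc : IsCoprime (p : ℤ) q) (hc' : IsCoprime (p' : ℤ) q')
    (h : stepL p q d = stepL p' q' d') (heq : |q| = |q'|)
    (hg : d.1.coeff 0 + ((|q| : ℤ) : ℚ) ≠ 0) : p = p' ∧ q = q' ∧ d = d' := by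
  have t := stepL_type hp hq hc d
  have t' := stepL_type hp' hq' hc' d'
  have hM := M_ne_zero (by omega) hq hg (p := p) (d := d)
  rw [← h] at t'
  have hk := lemmaB_eq t t' heq hM
  have hp0 : (0 : ℚ) < p := by exact_mod_cast (by omega : 0 < p)
  have hp0' : (0 : ℚ) < p' := by exact_mod_cast (by omega : 0 < p')
  have hi : (0 : ℚ) < 1 / p := by positivity
  have hi' : (0 : ℚ) < 1 / p' := by positivity
  have hqq : q = q' := by
    rcases lt_or_gt_of_ne hq with e | e <;> rcases lt_or_gt_of_ne hq' with e' | e'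
    · rw [abs_of_neg e, abs_of_neg e'] at heq; omega
    · rw [Int.sign_eq_neg_one_of_neg e, Int.sign_eq_one_of_pos e'] at hk
      push_cast at hk
      linarith
    · rw [Int.sign_eq_one_of_pos e, Int.sign_eq_neg_one_of_neg e'] at hk
      push_cast at hk
      linarith
    · rw [abs_of_pos e, abs_of_pos e'] at heq; omega
  subst hqq
  have hs : ((q.sign : ℤ) : ℚ) ≠ 0 := by
    rcases lt_or_gt_of_ne hq with e | e
    · rw [Int.sign_eq_neg_one_of_neg e]; norm_num
    · rw [Int.sign_eq_one_of_pos e]; norm_num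
  have hpp : p = p' := by
    have h1 := mul_right_cancel₀ hs hk
    rw [one_div, one_div, inv_inj] at h1
    exact_mod_cast h1
  subst hpp
  have hpL : cst (p : ℚ) ≠ 0 := by
    rw [Ne, map_eq_zero]
    exact hp0.ne'
  have h1 : (stepL p q d).1 = (stepL p q d').1 := by rw [h]
  have h2 : (stepL p q d).2 = (stepL p q d').2 := by rw [h]
  simp only [stepL] at h1 h2
  have e1 : dil p d.1 = dil p d'.1 := by
    have := add_left_cancel h1
    exact mul_left_cancel₀ hpL this
  rw [e1] at h2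
  have e2 : dil p d.2 = dil p d'.2 := add_right_cancel h2
  exact ⟨rfl, rfl, Prod.ext (dil_injective (by omega) e1) (dil_injective (by omega) e2)⟩

theorem lemmaC {p p' : ℕ} {q q' : ℤ} {d d' : L × L} (hp : 2 ≤ p) (hp' : 2 ≤ p')
    (hq : q ≠ 0) (hq' : q' ≠ 0) (hc : IsCoprime (p : ℤ) q) (hc' : IsCoprime (p' : ℤ) q')
    (h : stepL p q d = stepL p' q' d') (hne : |q| ≠ |q'|) :
    ∃ b : ℤ, q = p' * b ∧ q' = p * b ∧ IsCoprime (p : ℤ) p' ∧ IsCoprime (p : ℤ) b ∧
      IsType p' b (p / p') d := by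
  have t := stepL_type hp hq hc d
  have t' := stepL_type hp' hq' hc' d'
  have t'' := t'
  rw [← h] at t'
  have hp0 : (p : ℚ) ≠ 0 := by exact_mod_cast (by omega : p ≠ 0)
  have hp0' : (p' : ℚ) ≠ 0 := by exact_mod_cast (by omega : p' ≠ 0)
  obtain ⟨h1, h2, h3⟩ := lemmaB_ne t t' hne
  obtain ⟨b, hb⟩ := h1
  have hb' : q' = p * b := by
    have : (q' : ℚ) = p * b := by
      rw [hb] at h3
      push_cast at h3
      field_simp at h3
      exact h3
    exact_mod_cast this
  have hb0 : b ≠ 0 := by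
    rintro rfl
    exact hq (by rw [hb, mul_zero])
  have c1 : IsCoprime (p : ℤ) p' := by
    rw [hb] at hc
    exact hc.of_mul_right_left
  have c2 : IsCoprime (p : ℤ) b := by
    rw [hb] at hc
    exact hc.of_mul_right_right
  have c3 : IsCoprime (p' : ℤ) b := by
    rw [hb'] at hc'
    exact hc'.of_mul_right_right
  refine ⟨b, hb, hb', c1, c2, ?_⟩
  have hpp : 0 < p := by omega
  have hpp' : 0 < p' := by omega
  -- notation
  have hqL : (q : ℚ) = p' * b := by rw [hb]; push_cast; ring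
  have hqL' : (q' : ℚ) = p * b := by rw [hb']; push_cast; ring
  have hcc : (p' : ℤ) * q' = p * q := by rw [hb, hb']; ring
  have i1 : cst p * cst p⁻¹ = 1 := by rw [← map_mul, mul_inv_cancel₀ hp0, map_one]
  have i1' : cst p' * cst p'⁻¹ = 1 := by rw [← map_mul, mul_inv_cancel₀ hp0', map_one]
  set A : L := cot Y q with hA
  set A' : L := cot Y q' with hA'
  set Cc : L := cot Y (p * q) with hCc
  set N : L := (stepL p q d).1 - cst q * A - cst q' * A' with hN
  have sA : Supp p' A := (supp_cot q).mono ⟨b, hb⟩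
  have sA' : Supp p A' := (supp_cot q').mono ⟨b, hb'⟩
  have sC : Supp p Cc := (supp_cot _).mono ⟨q, rfl⟩
  have sC' : Supp p' Cc := (supp_cot _).mono ⟨q', hcc.symm⟩
  have sN : Supp p N := t.suppM.sub ((Supp.cst _ _).mul sA')
  have sN' : Supp p' N := by
    have : N = ((stepL p q d).1 - cst q' * A') - cst q * A := by rw [hN]; ring
    rw [this]
    exact t'.suppM.sub ((Supp.cst _ _).mul sA)
  obtain ⟨N1, hN1⟩ := exists_dil hpp sN
  have sN1 : Supp p' N1 := by
    rw [hN1] at sN'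
    exact supp_of_dil hpp c1.symm sN'
  have hM : cst p * (dil p d.1 - cst q * Cc) = N + cst q' * A' := by
    rw [← stepL_M, hN]; ring
  have hM' : cst p' * (dil p' d'.1 - cst q' * Cc) = N + cst q * A := by
    have := stepL_M p' q' d'
    rw [← h, hcc] at this
    rw [← this, hN]; ring
  -- first component
  have dB : dil p (cot Y b) = A' := by rw [dil_cot hpp, ← hb']
  have dA : dil p A = Cc := by rw [dil_cot hpp]
  have dc : ∀ c : ℚ, dil p (cst c) = cst c := by
    intro c
    rw [dil, dif_pos hpp]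
    exact embDomainRingHom_C
  have hd1 : d.1 - cst b * cot Y b = cst q * A + cst p⁻¹ * N1 := by
    apply dil_injective hpp
    simp only [map_sub, map_mul, map_add, dc, dB, dA, ← hN1]
    rw [hqL'] at hM
    rw [map_mul] at hM
    linear_combination cst p⁻¹ * hM - (dil p d.1 - cst q * Cc - cst b * A') * i1
  have hM1 : Supp p' (d.1 - cst b * cot Y b) := by
    rw [hd1]
    exact ((Supp.cst _ _).mul sA).add ((Supp.cst _ _).mul sN1)
  -- second component
  set Xi : L := (stepL p q d).2 - cst p⁻¹ * (A * N) - cst p'⁻¹ * (A' * N) - cst b * (A * A')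
    + Cc * N with hXi
  have hr : (stepL p q d).2 = dil p d.2 + (A - cst p * Cc) * (cst p⁻¹ * (N + cst q' * A')) := by
    have : cst p⁻¹ * (N + cst q' * A') = dil p d.1 - cst q * Cc := by
      rw [← hM, ← mul_assoc, mul_comm (cst (p : ℚ)⁻¹), i1, one_mul]
    rw [this]
    rfl
  have hr' : (stepL p q d).2 =
      dil p' d'.2 + (A' - cst p' * Cc) * (cst p'⁻¹ * (N + cst q * A)) := by
    have : cst p'⁻¹ * (N + cst q * A) = dil p' d'.1 - cst q' * Cc := by
      rw [← hM', ← mul_assoc, mul_comm (cst (p' : ℚ)⁻¹), i1', one_mul]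
    rw [this, h]
    simp only [stepL]
    rw [hcc]
  have x1 : Xi = dil p d.2 - A' * (cst p'⁻¹ * N + cst q' * Cc) := by
    rw [hXi, hr, hqL', map_mul]
    linear_combination (A * cst b * A' - Cc * N - Cc * cst p * cst b * A') * i1
  have x2 : Xi = dil p' d'.2 - A * (cst p⁻¹ * N + cst q * Cc) := by
    rw [hXi, hr', hqL, map_mul]
    linear_combination (A' * cst b * A - Cc * N - Cc * cst p' * cst b * A) * i1'
  have sXi : Supp p Xi := by
    rw [x1]
    exact (supp_dil hpp _).sub (sA'.mul (((Supp.cst _ _).mul sN).add ((Supp.cst _ _).mul sC)))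
  have sXi' : Supp p' Xi := by
    rw [x2]
    exact (supp_dil hpp' _).sub (sA.mul (((Supp.cst _ _).mul sN').add ((Supp.cst _ _).mul sC')))
  obtain ⟨Xi1, hXi1⟩ := exists_dil hpp sXi
  have sXi1 : Supp p' Xi1 := by
    rw [hXi1] at sXi'
    exact supp_of_dil hpp c1.symm sXi'
  have hd2 : d.2 = Xi1 + cot Y b * (cst p'⁻¹ * N1 + cst q' * A) := by
    apply dil_injective hpp
    simp only [map_mul, map_add, dc, dB, dA, ← hN1, ← hXi1]
    linear_combination (-1 : L) * x1
  refine ⟨hp', hb0, c3, hM1, ?_⟩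
  have : d.2 - cst (p / p') * (cot Y b * (d.1 - cst b * cot Y b)) = Xi1 := by
    rw [hd1, hd2, hqL, hqL', div_eq_mul_inv]
    simp only [map_mul]
    linear_combination (-(cst p'⁻¹ * cot Y b * N1)) * i1 - (cst p * cst b * cot Y b * A) * i1'
  rw [this]
  exact sXi1

theorem lemmaD {p p' p₁ : ℕ} {b q₁ : ℤ} {d₂ : L × L} (hp : 2 ≤ p)
    (hp₁ : 2 ≤ p₁) (hq₁ : q₁ ≠ 0) (hc₁ : IsCoprime (p₁ : ℤ) q₁)
    (c1 : IsCoprime (p : ℤ) p') (c2 : IsCoprime (p : ℤ) b)
    (hg : d₂.1.coeff 0 + ((|q₁| : ℤ) : ℚ) ≠ 0)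
    (t : IsType p' b (p / p') (stepL p₁ q₁ d₂)) : False := by
  have t₁ := stepL_type hp₁ hq₁ hc₁ d₂
  have hp0 : (0 : ℚ) < p := by exact_mod_cast (by omega : 0 < p)
  have hp0' : (0 : ℚ) < p' := by exact_mod_cast (by have := t.two_le; omega : 0 < p')
  have hp₁0 : (0 : ℚ) < p₁ := by exact_mod_cast (by omega : 0 < p₁)
  have key : (p : ℤ) ∣ p' * b → False := by
    intro hd
    have hcop : IsCoprime (p : ℤ) (p' * b) := c1.mul_right c2
    exact not_dvd_of_cop hp hcop hd
  by_cases he : |q₁| = |b|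
  · have hM := M_ne_zero (by omega) hq₁ hg (p := p₁) (d := d₂)
    have hk := lemmaB_eq t₁ t he hM
    have hi : (0 : ℚ) < 1 / p₁ := by positivity
    have hi' : (0 : ℚ) < p / p' := by positivity
    have hk' : (1 : ℚ) / p₁ = p / p' := by
      rcases lt_or_gt_of_ne hq₁ with e | e <;> rcases lt_or_gt_of_ne t.ne with e' | e'
      · rw [Int.sign_eq_neg_one_of_neg e, Int.sign_eq_neg_one_of_neg e'] at hk
        push_cast at hk
        linarith
      · rw [Int.sign_eq_neg_one_of_neg e, Int.sign_eq_one_of_pos e'] at hk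
        push_cast at hk
        linarith
      · rw [Int.sign_eq_one_of_pos e, Int.sign_eq_neg_one_of_neg e'] at hk
        push_cast at hk
        linarith
      · rw [Int.sign_eq_one_of_pos e, Int.sign_eq_one_of_pos e'] at hk
        push_cast at hk
        linarith
    have h4 : (p' : ℚ) = p * p₁ := by
      field_simp at hk'
      linarith
    have h5 : (p' : ℤ) = p * p₁ := by exact_mod_cast h4
    apply key
    rw [h5]
    exact ⟨p₁ * b, by ring⟩
  · obtain ⟨h1, h2, h3⟩ := lemmaB_ne t₁ t he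
    have h4 : (p' : ℚ) * b = p * (p₁ * q₁) := by
      field_simp at h3
      linarith
    have h5 : (p' : ℤ) * b = p * (p₁ * q₁) := by exact_mod_cast h4
    exact key ⟨_, h5⟩

end

end Pool.Agent.H765.IT
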