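import Mathlib

/-! Coloured Jones polynomials of iterated cables by the cabling formula. -/

namespace Pool.Agent.H765.IT

open LaurentPolynomial

noncomputable section

/-- The sum of `f j` over `j = -(n-1), -(n-3), ..., n-3, n-1` (`n` terms). -/
def symSum {R : Type*} [AddCommMonoid R] (f : ℤ → R) (n : ℕ) : R :=
  ∑ i ∈ Finset.range n, f (2 * i - (n - 1))

/-- The quantum integer `[N] = (v^{2N} - v^{-2N})/(v^2 - v^{-2})`, where `v = T 1`, i.e. the
unnormalised `N`-coloured Jones polynomial of the unknot (odd in `N`). -/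
def qint (N : ℤ) : ℤ[T;T⁻¹] := N.sign • symSum (fun j => T (2 * j)) N.natAbs

/-- The cabling formula: if `J N` is the unnormalised `N`-coloured Jones polynomial of a knot `K`
(extended to all integers `N` as an odd function, in the variable `v`), then `cable p q J N` is
the one of the `(p, q)`-cable of `K` (winding number `p`). -/
def cable (p : ℕ) (q : ℤ) (J : ℤ → ℤ[T;T⁻¹]) (N : ℤ) : ℤ[T;T⁻¹] :=
  N.sign • (T (-(p * q * (N ^ 2 - 1))) *
    symSum (fun j => T (q * j * (p * j + 2)) * J (p * j + 1)) N.natAbs)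

/-- Iterated cabling: the head of the list is the outermost cabling. -/
def cables (J : ℤ → ℤ[T;T⁻¹]) (l : List (ℕ × ℤ)) : ℤ → ℤ[T;T⁻¹] :=
  l.foldr (fun x J' => cable x.1 x.2 J') J

/-- `e^{bh}` as a power series in `h` -/
def hexp (b : ℚ) : PowerSeries ℚ := PowerSeries.rescale b (PowerSeries.exp ℚ)

theorem hexp_mul (a b : ℚ) : hexp a * hexp b = hexp (a + b) :=
  PowerSeries.exp_mul_exp_eq_exp_add a b

theorem hexp_zero : hexp 0 = 1 := by
  rw [hexp, PowerSeries.rescale_zero_apply]; simp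

/-- the unit `e^{bh}` -/
def uexp (b : ℚ) : (PowerSeries ℚ)ˣ where
  val := hexp b
  inv := hexp (-b)
  val_inv := by rw [hexp_mul, add_neg_cancel, hexp_zero]
  inv_val := by rw [hexp_mul, neg_add_cancel, hexp_zero]

/-- The substitution `v = e^{h/2}`, i.e. `q = v^4 = e^{2h}`. -/
def ev : ℤ[T;T⁻¹] →+* PowerSeries ℚ := eval₂ (Int.castRingHom _) (uexp (1 / 2))

/-- The substitution `t = e^{2x}`, used for Alexander polynomials. -/
def evAlex : ℤ[T;T⁻¹] →+* PowerSeries ℚ := eval₂ (Int.castRingHom _) (uexp 2)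

/-- the coefficient of `h^n` in the `N`-coloured Jones polynomial at `v = e^{h/2}` -/
def vass (J : ℤ → ℤ[T;T⁻¹]) (N : ℤ) (n : ℕ) : ℚ := PowerSeries.coeff n (ev (J N))

end

end Pool.Agent.H765.IT
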