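import Mathlib
import Pool.Agent.H765.IT.Defs

/-! Hypotheses on companions: admissible parameters, Melvin–Morton–Rozansky expansion. -/

namespace Pool.Agent.H765.IT

open LaurentPolynomial

noncomputable section

/-- Admissible cabling parameters `(p, q)`. -/
def Adm (x : ℕ × ℤ) : Prop := 2 ≤ x.1 ∧ x.2 ≠ 0 ∧ IsCoprime (x.1 : ℤ) x.2

/-- The Melvin–Morton–Rozansky expansion of a knot: `J N` is its unnormalised `N`-coloured Jones
polynomial (`[N]` for the unknot), `Δ` its Alexander polynomial. With `v = e^{h/2}`,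
`(e^h - e^{-h}) J N = ∑ h^k F_k(N h)`, `F_0(x) = (e^x - e^{-x}) / Δ(e^{2x})` and
`F_1(x) = (e^x - e^{-x}) P(e^{2x}) / Δ(e^{2x})^3`. -/
structure MMR (J : ℤ → ℤ[T;T⁻¹]) (Δ P : ℤ[T;T⁻¹]) : Prop where
  odd : ∀ N, J (-N) = - J N
  symm : invert Δ = Δ
  expansion : ∃ F : PowerSeries (PowerSeries ℚ),
    (∀ (N : ℤ) (n : ℕ), PowerSeries.coeff n ((hexp 1 - hexp (-1)) * ev (J N)) =
      ∑ k ∈ Finset.range (n + 1),
        PowerSeries.coeff (n - k) (PowerSeries.coeff k F) * (N : ℚ) ^ (n - k)) ∧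
    PowerSeries.coeff 0 F * evAlex Δ = hexp 1 - hexp (-1) ∧
    PowerSeries.coeff 1 F * evAlex Δ ^ 3 = (hexp 1 - hexp (-1)) * evAlex P

/-- The Alexander polynomial has the shape of that of a cable:
`Δ(t) (1 + t + ... + t^{b-1}) = t^m D(t^P)` for some `P ≥ 2`, `b ≥ 1` coprime to `P`. -/
def CableLike (Δ : ℤ[T;T⁻¹]) : Prop :=
  ∃ (P b : ℕ) (m : ℤ), 2 ≤ P ∧ 1 ≤ b ∧ Nat.Coprime P b ∧
    ∀ n : ℤ, (Δ * ∑ i ∈ Finset.range b, T (i : ℤ)).coeff n ≠ 0 → (P : ℤ) ∣ n - m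

end

end Pool.Agent.H765.IT
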