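import Mathlib
import Pool.Agent.H765.IT.Comb3
import Pool.Agent.H765.IT.DefsA

/-! Lists of cabling parameters are determined by the pair of Laurent series. -/

namespace Pool.Agent.H765.IT

open HahnSeries

noncomputable section

/-- iterated cabling on pairs of Laurent series -/
def dataL (d0 : L × L) : List (ℕ × ℤ) → L × L
  | [] => d0
  | x :: t => stepL x.1 x.2 (dataL d0 t)

/-- nondegeneracy of the innermost parameter -/
def NonDeg (g : ℚ) (l : List (ℕ × ℤ)) : Prop := ∀ x ∈ l.getLast?, 0 < g + ((|x.2| : ℤ) : ℚ)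

theorem NonDeg.tail {g : ℚ} {x y : ℕ × ℤ} {t : List (ℕ × ℤ)} (h : NonDeg g (x :: y :: t)) :
    NonDeg g (y :: t) := by
  intro z hz
  exact h z (by rw [List.getLast?_cons_cons]; exact hz)

theorem NonDeg.single {g : ℚ} {x : ℕ × ℤ} (h : NonDeg g [x]) : 0 < g + ((|x.2| : ℤ) : ℚ) :=
  h x (by simp)

theorem gamma_lt_aux {g G : ℚ} {p : ℕ} {q : ℤ} (hp : 2 ≤ p) (hG : g ≤ G)
    (hpos : 0 < G + ((|q| : ℤ) : ℚ)) : g < (p - 1) * ((|q| : ℤ) : ℚ) + p * G := by
  have hp' : (2 : ℚ) ≤ p := by exact_mod_cast hp
  nlinarith

theorem gamma_lt {g : ℚ} {d0 : L × L} (hg : d0.1.coeff 0 = g) (hg1 : -1 ≤ g)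
    (l : List (ℕ × ℤ)) (ha : ∀ x ∈ l, Adm x) (hn : NonDeg g l) (hl : l ≠ []) :
    g < (dataL d0 l).1.coeff 0 := by
  induction l with
  | nil => exact absurd rfl hl
  | cons x t ih =>
    obtain ⟨h2, hq, hc⟩ := ha x (by simp)
    rw [dataL, gamma_step (by omega) hq]
    cases t with
    | nil =>
      rw [dataL, hg]
      exact gamma_lt_aux h2 le_rfl hn.single
    | cons y t =>
      have h3 := ih (fun z hz => ha z (by simp at hz ⊢; tauto)) hn.tail (by simp)
      apply gamma_lt_aux h2 h3.le
      have h4 : (1 : ℚ) ≤ ((|x.2| : ℤ) : ℚ) := by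
        exact_mod_cast Int.one_le_abs hq
      linarith

theorem gamma_add_pos {g : ℚ} {d0 : L × L} (hg : d0.1.coeff 0 = g) (hg1 : -1 ≤ g)
    (x : ℕ × ℤ) (t : List (ℕ × ℤ)) (ha : ∀ y ∈ x :: t, Adm y) (hn : NonDeg g (x :: t)) :
    (dataL d0 t).1.coeff 0 + ((|x.2| : ℤ) : ℚ) ≠ 0 := by
  obtain ⟨h2, hq, hc⟩ := ha x (by simp)
  cases t with
  | nil =>
    rw [dataL, hg]
    exact hn.single.ne'
  | cons y t =>
    have h3 := gamma_lt hg hg1 (y :: t) (fun z hz => ha z (by simp at hz ⊢; tauto)) hn.tail
      (by simp)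
    have h4 : (1 : ℚ) ≤ ((|x.2| : ℤ) : ℚ) := by
      exact_mod_cast Int.one_le_abs hq
    apply ne_of_gt
    linarith

/-- the symmetry of torus knots at the innermost level -/
def SwapRel (l l' : List (ℕ × ℤ)) : Prop :=
  ∃ (m : List (ℕ × ℤ)) (p : ℕ) (q : ℤ),
    l = m ++ [(p, q)] ∧ l' = m ++ [(q.natAbs, q.sign * p)]

theorem dataL_injective {g : ℚ} {d0 : L × L} (hg : d0.1.coeff 0 = g) (hg1 : -1 ≤ g)
    (l : List (ℕ × ℤ)) : ∀ (l' : List (ℕ × ℤ)), (∀ x ∈ l, Adm x) → (∀ x ∈ l', Adm x) →
    NonDeg g l → NonDeg g l' → dataL d0 l = dataL d0 l' →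
    l = l' ∨ (g = -1 ∧ SwapRel l l') := by
  induction l with
  | nil =>
    intro l' ha ha' hn hn' h
    left
    by_contra hne
    have := gamma_lt hg hg1 l' ha' hn' (Ne.symm hne)
    rw [← h, dataL, hg] at this
    exact lt_irrefl _ this
  | cons x t ih =>
    intro l' ha ha' hn hn' h
    cases l' with
    | nil =>
      have := gamma_lt hg hg1 (x :: t) ha hn (by simp)
      rw [h, dataL, hg] at this
      exact absurd this (lt_irrefl _)
    | cons x' t' =>
      obtain ⟨h2, hq, hc⟩ := ha x (by simp)
      obtain ⟨h2', hq', hc'⟩ := ha' x' (by simp)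
      have hgp := gamma_add_pos hg hg1 x t ha hn
      have hgp' := gamma_add_pos hg hg1 x' t' ha' hn'
      rw [dataL, dataL] at h
      by_cases he : |x.2| = |x'.2|
      · obtain ⟨e1, e2, e3⟩ := lemmaA h2 h2' hq hq' hc hc' h he hgp
        have ex : x = x' := Prod.ext e1 e2
        subst ex
        cases t with
        | nil =>
          cases t' with
          | nil => left; rfl
          | cons y' t' =>
            have := gamma_lt hg hg1 (y' :: t') (fun z hz => ha' z (by simp at hz ⊢; tauto))
              hn'.tail (by simp)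
            rw [← e3, dataL, hg] at this
            exact absurd this (lt_irrefl _)
        | cons y t =>
          cases t' with
          | nil =>
            have := gamma_lt hg hg1 (y :: t) (fun z hz => ha z (by simp at hz ⊢; tauto))
              hn.tail (by simp)
            rw [e3, dataL, hg] at this
            exact absurd this (lt_irrefl _)
          | cons y' t' =>
            rcases ih (y' :: t') (fun z hz => ha z (by simp at hz ⊢; tauto))
              (fun z hz => ha' z (by simp at hz ⊢; tauto)) hn.tail hn'.tail e3 with h5 | ⟨h5, h6⟩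
            · left; rw [h5]
            · right
              refine ⟨h5, ?_⟩
              obtain ⟨m, p, q, e4, e5⟩ := h6
              exact ⟨x :: m, p, q, by rw [e4]; rfl, by rw [e5]; rfl⟩
      · obtain ⟨b, hb, hb', c1, c2, ty⟩ := lemmaC h2 h2' hq hq' hc hc' h he
        obtain ⟨b₂, hb₂, hb₂', c1', c2', ty'⟩ :=
          lemmaC h2' h2 hq' hq hc' hc h.symm (Ne.symm he)
        have ht : t = [] := by
          cases t with
          | nil => rfl
          | cons y t =>
            exfalso
            obtain ⟨h7, h8, h9⟩ := ha y (by simp)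
            have := gamma_add_pos hg hg1 y t (fun z hz => ha z (by simp at hz ⊢; tauto)) hn.tail
            exact lemmaD h2 h7 h8 h9 c1 c2 this ty
        have ht' : t' = [] := by
          cases t' with
          | nil => rfl
          | cons y t =>
            exfalso
            obtain ⟨h7, h8, h9⟩ := ha' y (by simp)
            have := gamma_add_pos hg hg1 y t (fun z hz => ha' z (by simp at hz ⊢; tauto)) hn'.tail
            exact lemmaD h2' h7 h8 h9 c1' c2' this ty'
        subst ht ht'
        right
        have hgam : (stepL x.1 x.2 (dataL d0 [])).1.coeff 0 =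
          (stepL x'.1 x'.2 (dataL d0 [])).1.coeff 0 := by rw [h]
        rw [gamma_step (by omega) hq, gamma_step (by omega) hq', dataL, hg] at hgam
        have a1 : ((|x.2| : ℤ) : ℚ) = x'.1 * ((|b| : ℤ) : ℚ) := by
          rw [hb, abs_mul]; push_cast; simp
        have a2 : ((|x'.2| : ℤ) : ℚ) = x.1 * ((|b| : ℤ) : ℚ) := by
          rw [hb', abs_mul]; push_cast; simp
        rw [a1, a2] at hgam
        have hpp : (x.1 : ℚ) - x'.1 ≠ 0 := by
          intro h0
          have h1 : (x.1 : ℤ) = x'.1 := by
            have : (x.1 : ℚ) = x'.1 := by linarith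
            exact_mod_cast this
          rw [h1] at c1
          have := isCoprime_self.mp c1
          rw [Int.isUnit_iff] at this
          omega
        have hb1 : g = - ((|b| : ℤ) : ℚ) := by
          have : ((x.1 : ℚ) - x'.1) * (g + ((|b| : ℤ) : ℚ)) = 0 := by linear_combination hgam
          rcases mul_eq_zero.mp this with h0 | h0
          · exact absurd h0 hpp
          · linarith
        have hb2 : |b| = 1 := by
          have h3 : (1 : ℤ) ≤ |b| := Int.one_le_abs ty.ne
          have h4 : ((|b| : ℤ) : ℚ) ≤ 1 := by linarith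
          have h5 : |b| ≤ 1 := by exact_mod_cast h4
          omega
        refine ⟨by rw [hb1, hb2]; norm_num, [], x.1, x.2, by simp, ?_⟩
        have hs : x.2.sign = b := by
          rw [hb, Int.sign_mul, Int.sign_natCast_of_ne_zero (by omega), one_mul]
          rcases (abs_eq (by norm_num : (0 : ℤ) ≤ 1)).mp hb2 with e | e <;> rw [e] <;> rfl
        have hna : x.2.natAbs = x'.1 := by
          rw [hb, Int.natAbs_mul, Int.natAbs_natCast]
          have : b.natAbs = 1 := by
            rw [Int.abs_eq_natAbs] at hb2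
            exact_mod_cast hb2
          rw [this, mul_one]
        rw [hs, hna]
        simp only [List.nil_append, List.cons.injEq, and_true]
        exact Prod.ext rfl (by simp only; rw [hb', mul_comm])

end

end Pool.Agent.H765.IT
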