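import Mathlib

/-! Differential operators `exp(h P(d/dx))` acting on power series in `x` and `h`. -/

namespace Pool.Agent.H765.IT

open PowerSeries

noncomputable section

/-- power series in `x` -/
abbrev PX : Type := PowerSeries ℚ
/-- power series in `h` with coefficients power series in `x` -/
abbrev PXH : Type := PowerSeries PX
/-- linear operators on power series in `x` -/
abbrev OpX : Type := Module.End ℚ PX

/-- the derivative `d/dx` -/
def D : OpX := (PowerSeries.derivative ℚ).toLinearMap

/-- multiplication by a power series -/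
def ml : PX →+* OpX := (Algebra.lmul ℚ PX).toRingHom

theorem ml_apply (u v : PX) : ml u v = u * v := rfl

/-- evaluation of operators at `1`, coefficientwise in `h` -/
def ev1 (Ψ : PowerSeries OpX) : PXH := PowerSeries.mk fun n => (coeff n Ψ) 1

/-- the action of operator valued power series in `h` -/
def act (Φ : PowerSeries OpX) (F : PXH) : PXH := ev1 (Φ * PowerSeries.map ml F)

theorem coeff_act (Φ : PowerSeries OpX) (F : PXH) (n : ℕ) :
    coeff n (act Φ F) = ∑ ij ∈ Finset.HasAntidiagonal.antidiagonal n, (coeff ij.1 Φ) (coeff ij.2 F) := by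
  simp only [act, ev1, coeff_mk, coeff_mul, LinearMap.sum_apply, Module.End.mul_apply, coeff_map,
    ml_apply, mul_one]

theorem ev1_mul (Φ Ψ : PowerSeries OpX) : ev1 (Φ * Ψ) = act Φ (ev1 Ψ) := by
  ext1 n
  rw [coeff_act]
  simp only [ev1, coeff_mk, coeff_mul, LinearMap.sum_apply, Module.End.mul_apply]

theorem act_mul (Φ Ψ : PowerSeries OpX) (F : PXH) : act (Φ * Ψ) F = act Φ (act Ψ F) := by
  unfold act
  rw [mul_assoc, ev1_mul]
  rfl

theorem act_one (F : PXH) : act 1 F = F := by
  ext1 n
  simp [act, ev1, ml_apply]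

theorem act_sub (Φ Ψ : PowerSeries OpX) (F : PXH) : act (Φ - Ψ) F = act Φ F - act Ψ F := by
  ext1 n
  simp [act, ev1, sub_mul]

theorem act_neg_right (Φ : PowerSeries OpX) (F : PXH) : act Φ (-F) = - act Φ F := by
  ext1 n
  rw [map_neg, coeff_act, coeff_act]
  simp

theorem coeff_act_C (U : OpX) (F : PXH) (n : ℕ) : coeff n (act (C U) F) = U (coeff n F) := by
  unfold act ev1
  rw [coeff_mk, coeff_C_mul, coeff_map, Module.End.mul_apply, ml_apply, mul_one]

theorem coeff_act_C_mul (U : OpX) (Φ : PowerSeries OpX) (F : PXH) (n : ℕ) :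
    coeff n (act (C U * Φ) F) = U (coeff n (act Φ F)) := by
  rw [act_mul, coeff_act_C]

/-- apply a polynomial with power series coefficients to `d/dx` -/
def lft : PowerSeries (Polynomial ℚ) →+* PowerSeries OpX :=
  PowerSeries.map (Polynomial.aeval D).toRingHom

theorem coeff_lft (Φ : PowerSeries (Polynomial ℚ)) (n : ℕ) :
    coeff n (lft Φ) = Polynomial.aeval D (coeff n Φ) := by
  rw [lft, coeff_map]; rfl

/-- `exp(h P)` for a polynomial `P` -/
def eP (P : Polynomial ℚ) : PowerSeries (Polynomial ℚ) := rescale P (exp (Polynomial ℚ))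

theorem coeff_eP (P : Polynomial ℚ) (n : ℕ) :
    coeff n (eP P) = Polynomial.C (1 / (n.factorial : ℚ)) * P ^ n := by
  rw [eP, coeff_rescale, coeff_exp, mul_comm]; rfl

theorem eP_mul (P Q : Polynomial ℚ) : eP P * eP Q = eP (P + Q) := exp_mul_exp_eq_exp_add P Q

theorem eP_zero : eP 0 = 1 := by
  rw [eP, rescale_zero_apply]; simp

/-- `exp(h P(d/dx))` -/
def Op (P : Polynomial ℚ) : PowerSeries OpX := lft (eP P)

theorem Op_mul (P Q : Polynomial ℚ) : Op P * Op Q = Op (P + Q) := by
  rw [Op, Op, Op, ← eP_mul, map_mul]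

theorem Op_zero : Op 0 = 1 := by rw [Op, eP_zero, map_one]

theorem Op_comm (P Q : Polynomial ℚ) : Op P * Op Q = Op Q * Op P := by
  rw [Op_mul, Op_mul, add_comm]

theorem coeff_Op (P : Polynomial ℚ) (n : ℕ) :
    coeff n (Op P) = (1 / (n.factorial : ℚ)) • Polynomial.aeval D P ^ n := by
  rw [Op, coeff_lft, coeff_eP, map_mul, map_pow, Polynomial.aeval_C, Algebra.smul_def]

theorem coeff_zero_act_Op (P : Polynomial ℚ) (F : PXH) : coeff 0 (act (Op P) F) = coeff 0 F := by
  rw [coeff_act]
  simp [coeff_Op]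

theorem coeff_one_act_Op (P : Polynomial ℚ) (F : PXH) :
    coeff 1 (act (Op P) F) = coeff 1 F + (Polynomial.aeval D P) (coeff 0 F) := by
  rw [coeff_act]
  simp [coeff_Op, Finset.Nat.antidiagonal_succ]

/-- intertwining passes to polynomials -/
theorem semiconj_aeval {U x y : OpX} (h : U * x = y * U) (P : Polynomial ℚ) :
    U * Polynomial.aeval x P = Polynomial.aeval y P * U := by
  induction P using Polynomial.induction_on' with
  | add p q hp hq => rw [map_add, map_add, mul_add, add_mul, hp, hq]
  | monomial n a =>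
    rw [Polynomial.aeval_monomial, Polynomial.aeval_monomial]
    have h1 : U * x ^ n = y ^ n * U := (show SemiconjBy U x y from h).pow_right n
    rw [← mul_assoc, ← Algebra.commutes, mul_assoc, h1, mul_assoc]

/-- `e^{bx}` -/
def ex (b : ℚ) : PX := rescale b (exp ℚ)

theorem ex_mul (a b : ℚ) : ex a * ex b = ex (a + b) := exp_mul_exp_eq_exp_add a b

theorem ex_zero : ex 0 = 1 := by
  rw [ex, rescale_zero_apply]; simp

theorem coeff_ex (b : ℚ) (n : ℕ) : coeff n (ex b) = b ^ n * (1 / (n.factorial : ℚ)) := by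
  rw [ex, coeff_rescale, coeff_exp]; rfl

theorem D_apply (u : PX) : D u = PowerSeries.derivative ℚ u := rfl

theorem D_ex (b : ℚ) : D (ex b) = b • ex b := by
  ext n
  rw [D_apply, coeff_derivative, coeff_ex, coeff_smul, coeff_ex, Nat.factorial_succ, smul_eq_mul]
  have h1 : (n.factorial : ℚ) ≠ 0 := by exact_mod_cast n.factorial_ne_zero
  have h2 : ((n : ℚ) + 1) ≠ 0 := by positivity
  push_cast
  field_simp
  ring

theorem D_mul (u v : PX) : D (u * v) = u * D v + D u * v := by
  simp only [D_apply, Derivation.leibniz, smul_eq_mul]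
  ring

theorem ml_ex_D (b : ℚ) : ml (ex b) * (D + algebraMap ℚ OpX b) = D * ml (ex b) := by
  ext1 u
  simp only [Module.End.mul_apply, LinearMap.add_apply, ml_apply, D_mul, D_ex,
    Module.algebraMap_end_apply]
  simp only [Algebra.smul_def]
  ring

theorem aeval_comp_add (b : ℚ) (P : Polynomial ℚ) :
    Polynomial.aeval (D + algebraMap ℚ OpX b) P =
      Polynomial.aeval D (P.comp (Polynomial.X + Polynomial.C b)) := by
  rw [Polynomial.aeval_comp]
  simp

theorem eP_comp (P Q : Polynomial ℚ) :
    PowerSeries.map (Polynomial.compRingHom Q) (eP P) = eP (P.comp Q) := by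
  ext1 n
  rw [coeff_map, coeff_eP, coeff_eP]
  simp [Polynomial.mul_comp, Polynomial.pow_comp]

theorem conj_general {U : OpX} {Q : Polynomial ℚ} (P : Polynomial ℚ)
    (h : ∀ R : Polynomial ℚ, U * Polynomial.aeval D (R.comp Q) = Polynomial.aeval D R * U) :
    C U * Op (P.comp Q) = Op P * C U := by
  ext1 n
  rw [coeff_C_mul, coeff_mul_C, Op, Op, coeff_lft, coeff_lft, ← eP_comp, coeff_map]
  exact h _

theorem conj_ex (b : ℚ) (P : Polynomial ℚ) :
    C (ml (ex b)) * Op (P.comp (Polynomial.X + Polynomial.C b)) = Op P * C (ml (ex b)) := by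
  apply conj_general
  intro R
  rw [← aeval_comp_add]
  exact semiconj_aeval (ml_ex_D b) R

/-- scalars commute -/
theorem Op_C_comm (c : ℚ) (U : OpX) : Op (Polynomial.C c) * C U = C U * Op (Polynomial.C c) := by
  ext1 n
  rw [coeff_C_mul, coeff_mul_C, coeff_Op, Polynomial.aeval_C, ← map_pow]
  rw [smul_mul_assoc, mul_smul_comm, Algebra.commutes]

/-- substitution `x ↦ p x` as an operator -/
def rs (p : ℚ) : OpX where
  toFun := rescale p
  map_add' := map_add _
  map_smul' c u := by
    ext n
    simp [coeff_rescale]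
    ring

theorem rs_apply (p : ℚ) (u : PX) : rs p u = rescale p u := rfl

theorem rs_ml (p : ℚ) (u : PX) : rs p * ml u = ml (rescale p u) * rs p := by
  ext1 v
  simp only [Module.End.mul_apply, rs_apply, ml_apply, map_mul]

theorem D_rescale (p : ℚ) (u : PX) : D (rescale p u) = p • rescale p (D u) := by
  ext n
  simp only [D_apply, coeff_derivative, coeff_rescale, coeff_smul, smul_eq_mul]
  ring

theorem rs_neg_D : rs (-1) * D = (-D) * rs (-1) := by
  ext1 u
  rw [Module.End.mul_apply, Module.End.mul_apply, LinearMap.neg_apply, rs_apply, rs_apply,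
    D_rescale]
  simp

theorem conj_neg (P : Polynomial ℚ) (hP : P.comp (-Polynomial.X) = P) :
    C (rs (-1)) * Op P = Op P * C (rs (-1)) := by
  have h := conj_general (U := rs (-1)) (Q := -Polynomial.X) P (by
    intro R
    rw [semiconj_aeval rs_neg_D, Polynomial.aeval_comp]
    simp)
  rwa [hP] at h

end

end Pool.Agent.H765.IT
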