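import Mathlib
import Pool.Agent.H765.IT.Loop1

/-! Evaluation at `x = m h`. -/

namespace Pool.Agent.H765.IT

open PowerSeries Finset.HasAntidiagonal

noncomputable section

/-- evaluation `x = m h` -/
def eps (m : ℚ) (F : PXH) : PX :=
  PowerSeries.mk fun n => ∑ ki ∈ antidiagonal n, m ^ ki.2 * coeff ki.2 (coeff ki.1 F)

theorem coeff_eps (m : ℚ) (F : PXH) (n : ℕ) :
    coeff n (eps m F) = ∑ ki ∈ antidiagonal n, m ^ ki.2 * coeff ki.2 (coeff ki.1 F) := by
  rw [eps, coeff_mk]

theorem eps_add (m : ℚ) (F G : PXH) : eps m (F + G) = eps m F + eps m G := by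
  ext n
  simp only [coeff_eps, map_add, mul_add, Finset.sum_add_distrib]

theorem eps_sub (m : ℚ) (F G : PXH) : eps m (F - G) = eps m F - eps m G := by
  ext n
  simp only [coeff_eps, map_sub, mul_sub, Finset.sum_sub_distrib]

theorem eps_neg (m : ℚ) (F : PXH) : eps m (-F) = - eps m F := by
  ext n
  simp only [coeff_eps, map_neg, mul_neg, Finset.sum_neg_distrib]

/-- truncated form -/
theorem coeff_eps' (m : ℚ) (F : PXH) (n : ℕ) :
    coeff n (eps m F) = ∑ k ∈ Finset.range (n + 1), coeff (n - k) (rescale m (coeff k F)) := by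
  rw [coeff_eps, Finset.Nat.sum_antidiagonal_eq_sum_range_succ_mk]
  simp only [coeff_rescale]

theorem coeff_eps_ext (m : ℚ) (F : PXH) {n N : ℕ} (h : n ≤ N) :
    coeff n (eps m F) =
      coeff n (∑ k ∈ Finset.range (N + 1), X ^ k * rescale m (coeff k F)) := by
  rw [coeff_eps', map_sum]
  have h1 : Finset.range (n + 1) ⊆ Finset.range (N + 1) := by
    apply Finset.range_subset_range.mpr; omega
  rw [← Finset.sum_subset h1]
  · apply Finset.sum_congr rfl
    intro k hk
    rw [Finset.mem_range] at hk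
    rw [coeff_X_pow_mul', if_pos (by omega)]
  · intro k _ hk
    rw [Finset.mem_range] at hk
    rw [coeff_X_pow_mul', if_neg (by omega)]

theorem eps_act_ml (m : ℚ) (u : PX) (F : PXH) :
    eps m (act (C (ml u)) F) = rescale m u * eps m F := by
  ext n
  rw [coeff_eps_ext m _ le_rfl, coeff_mul]
  simp only [coeff_act_C, ml_apply, map_mul]
  have h1 : (∑ k ∈ Finset.range (n + 1),
      X ^ k * (rescale m u * rescale m (coeff k F))) =
      rescale m u * ∑ k ∈ Finset.range (n + 1), X ^ k * rescale m (coeff k F) := by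
    rw [Finset.mul_sum]
    apply Finset.sum_congr rfl
    intro k _
    ring
  rw [h1, coeff_mul]
  apply Finset.sum_congr rfl
  rintro ⟨i, j⟩ hij
  rw [mem_antidiagonal] at hij
  simp only at hij ⊢
  rw [coeff_eps_ext m F (show j ≤ n by omega)]

theorem coeff_iter_D (k i : ℕ) (u : PX) :
    coeff i ((D ^ k) u) = ((i + k).factorial / (i.factorial : ℚ)) * coeff (i + k) u := by
  induction k generalizing i with
  | zero =>
    have : (i.factorial : ℚ) ≠ 0 := by exact_mod_cast i.factorial_ne_zero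
    simp [this]
  | succ k ih =>
    have h1 : (i.factorial : ℚ) ≠ 0 := by exact_mod_cast i.factorial_ne_zero
    have h2 : ((i : ℚ) + 1) ≠ 0 := by positivity
    rw [pow_succ', Module.End.mul_apply, D_apply, coeff_derivative, ih (i + 1),
      show i + 1 + k = i + (k + 1) by ring, Nat.factorial_succ i]
    push_cast
    field_simp

theorem eps_shift (m c : ℚ) (F : PXH) :
    eps m (act (Op (Polynomial.C c * Polynomial.X)) F) = eps (m + c) F := by
  ext n
  rw [coeff_eps, coeff_eps]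
  simp only [coeff_act, coeff_Op, map_mul, Polynomial.aeval_C, Polynomial.aeval_X]
  have h0 : ∀ k : ℕ, ((algebraMap ℚ OpX c) * D) ^ k = (c ^ k) • D ^ k := by
    intro k
    rw [← Algebra.smul_def, smul_pow]
  simp only [h0, LinearMap.smul_apply, map_sum, coeff_smul, coeff_iter_D, smul_eq_mul,
    Finset.mul_sum]
  -- LHS : sum over (k,i), (a,b) in antidiagonal k
  rw [Finset.sum_sigma']
  have h1 : ∀ ki ∈ antidiagonal n, (m + c) ^ ki.2 * coeff ki.2 (coeff ki.1 F) =
      ∑ ai ∈ antidiagonal ki.2, m ^ ai.2 * (1 / (ai.1.factorial : ℚ) *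
        (c ^ ai.1 * (((ai.2 + ai.1).factorial : ℚ) / (ai.2.factorial : ℚ) *
          coeff (ai.2 + ai.1) (coeff ki.1 F)))) := by
    rintro ⟨b, j⟩ _
    simp only
    rw [add_comm m c, add_pow, Finset.sum_mul,
      Finset.Nat.sum_antidiagonal_eq_sum_range_succ_mk]
    apply Finset.sum_congr rfl
    intro a ha
    rw [Finset.mem_range] at ha
    have h3 : j - a + a = j := by omega
    simp only [h3]
    rw [Nat.cast_choose ℚ (show a ≤ j by omega)]
    ring
  rw [Finset.sum_congr rfl h1, Finset.sum_sigma']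
  apply Finset.sum_bij' (fun (x : (_ : ℕ × ℕ) × ℕ × ℕ) _ =>
      (⟨(x.2.2, x.1.2 + x.2.1), (x.2.1, x.1.2)⟩ : (_ : ℕ × ℕ) × ℕ × ℕ))
    (fun (y : (_ : ℕ × ℕ) × ℕ × ℕ) _ =>
      (⟨(y.2.1 + y.1.1, y.2.2), (y.2.1, y.1.1)⟩ : (_ : ℕ × ℕ) × ℕ × ℕ))
  · rintro ⟨⟨k, i⟩, ⟨a, b⟩⟩ hx
    simp only [Finset.mem_sigma, mem_antidiagonal] at hx ⊢
    omega
  · rintro ⟨⟨b, j⟩, ⟨a, i⟩⟩ hx
    simp only [Finset.mem_sigma, mem_antidiagonal] at hx ⊢
    obtain ⟨h3, h4⟩ := hx
    exact ⟨by omega, trivial⟩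
  · rintro ⟨⟨k, i⟩, ⟨a, b⟩⟩ hx
    simp only [Finset.mem_sigma, mem_antidiagonal] at hx ⊢
    obtain ⟨h3, rfl⟩ := hx
    rfl
  · rintro ⟨⟨b, j⟩, ⟨a, i⟩⟩ hx
    simp only [Finset.mem_sigma, mem_antidiagonal] at hx ⊢
    obtain ⟨h3, rfl⟩ := hx
    rw [add_comm a i]
  · rintro ⟨⟨k, i⟩, ⟨a, b⟩⟩ hx
    rfl

/-- `x ↦ p x` on series in `x` and `h` -/
def scl (p : ℚ) (F : PXH) : PXH := PowerSeries.map (rescale p) F

theorem eps_scl (m p : ℚ) (F : PXH) : eps m (scl p F) = eps (p * m) F := by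
  ext n
  rw [coeff_eps, coeff_eps]
  apply Finset.sum_congr rfl
  rintro ⟨k, i⟩ _
  simp only [scl, coeff_map, coeff_rescale]
  ring

theorem act_rs (p : ℚ) (F : PXH) : act (C (rs p)) F = scl p F := by
  ext1 n
  rw [coeff_act_C, scl, coeff_map, rs_apply]

theorem rescale_ex (m b : ℚ) : rescale m (ex b) = ex (m * b) := by
  rw [ex, ex, rescale_rescale, mul_comm]

/-- a two-variable series is determined by its evaluations at `x = n h` -/
theorem eps_inj {F G : PXH} (h : ∀ n : ℕ, eps n F = eps n G) : F = G := by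
  ext k i
  have h1 : ∀ n : ℕ, (∑ ki ∈ antidiagonal (k + i),
      Polynomial.C (coeff ki.2 (coeff ki.1 F) - coeff ki.2 (coeff ki.1 G)) *
        Polynomial.X ^ ki.2).eval (n : ℚ) = 0 := by
    intro n
    have := congrArg (coeff (k + i)) (h n)
    rw [coeff_eps, coeff_eps, ← sub_eq_zero, ← Finset.sum_sub_distrib] at this
    rw [Polynomial.eval_finsetSum, ← this]
    apply Finset.sum_congr rfl
    intro ki _
    simp only [Polynomial.eval_mul, Polynomial.eval_C, Polynomial.eval_pow, Polynomial.eval_X]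
    ring
  have h2 : (∑ ki ∈ antidiagonal (k + i),
      Polynomial.C (coeff ki.2 (coeff ki.1 F) - coeff ki.2 (coeff ki.1 G)) *
        Polynomial.X ^ ki.2) = 0 := by
    apply Polynomial.eq_zero_of_infinite_isRoot
    apply Set.infinite_of_injective_forall_mem (f := fun n : ℕ => (n : ℚ)) Nat.cast_injective
    intro n
    exact h1 n
  have h3 := congrArg (fun P : Polynomial ℚ => P.coeff i) h2
  simp only [Polynomial.finsetSum_coeff, Polynomial.coeff_C_mul_X_pow,
    Polynomial.coeff_zero] at h3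
  rw [Finset.sum_eq_single (k, i)] at h3
  · simp only [if_true] at h3
    linarith
  · rintro ⟨a, b⟩ hab hne
    rw [mem_antidiagonal] at hab
    simp only at hab ⊢
    rw [if_neg]
    rintro rfl
    apply hne
    have : a = k := by omega
    rw [this]
  · intro hni
    exact absurd (show (k, i) ∈ antidiagonal (k + i) from mem_antidiagonal.mpr rfl) hni

end

end Pool.Agent.H765.IT
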