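import Mathlib
import Pool.Agent.H765.IT.Loop2

/-! Existence of the two-variable expansion of a cable. -/

namespace Pool.Agent.H765.IT

open PowerSeries Finset.HasAntidiagonal

noncomputable section

/-- `e^{bx} - e^{-bx}` -/
def sx (b : ℚ) : PX := ex b - ex (-b)
/-- `e^{bx} + e^{-bx}` -/
def cx (b : ℚ) : PX := ex b + ex (-b)

theorem coeff_zero_ex (b : ℚ) : coeff 0 (ex b) = 1 := by
  rw [coeff_ex]; simp

theorem coeff_one_sx (b : ℚ) : coeff 1 (sx b) = 2 * b := by
  rw [sx, map_sub, coeff_ex, coeff_ex]; simp; ring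

theorem coeff_zero_sx (b : ℚ) : coeff 0 (sx b) = 0 := by
  rw [sx, map_sub, coeff_zero_ex, coeff_zero_ex, sub_self]

theorem sx_ne_zero {b : ℚ} (hb : b ≠ 0) : sx b ≠ 0 := by
  intro h
  have := coeff_one_sx b
  rw [h, map_zero] at this
  apply hb; linarith

theorem rescale_sx (m b : ℚ) : rescale m (sx b) = sx (m * b) := by
  rw [sx, map_sub, rescale_ex, rescale_ex, sx, mul_neg]

theorem rescale_cx (m b : ℚ) : rescale m (cx b) = cx (m * b) := by
  rw [cx, map_add, rescale_ex, rescale_ex, cx, mul_neg]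

theorem sx_neg (b : ℚ) : sx (-b) = - sx b := by
  rw [sx, sx, neg_neg]; ring

theorem cx_neg (b : ℚ) : cx (-b) = cx b := by
  rw [cx, cx, neg_neg]; ring

theorem D_sx (b : ℚ) : D (sx b) = b • cx b := by
  rw [sx, map_sub, D_ex, D_ex, cx, smul_add, neg_smul]; abel

/-- quotient by `X` -/
def sg (b : ℚ) : PX := PowerSeries.mk fun n => coeff (n + 1) (sx b)

theorem X_mul_sg (b : ℚ) : X * sg b = sx b := by
  ext n
  cases n with
  | zero => rw [coeff_zero_sx]; simp
  | succ n => rw [coeff_succ_X_mul, sg, coeff_mk]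

theorem exists_w {a : ℚ} (ha : a ≠ 0) (q : ℚ) :
    ∃ w : PX, sx a * w = sx q ∧ rescale (-1) w = w := by
  have hc : constantCoeff (sg a) ≠ 0 := by
    rw [← coeff_zero_eq_constantCoeff_apply, sg, coeff_mk, coeff_one_sx]
    intro h; apply ha; linarith
  have h1 : sx a * (sg q * (sg a)⁻¹) = sx q := by
    rw [← X_mul_sg a, ← X_mul_sg q]
    calc X * sg a * (sg q * (sg a)⁻¹) = X * sg q * (sg a * (sg a)⁻¹) := by ring
      _ = X * sg q := by rw [PowerSeries.mul_inv_cancel _ hc, mul_one]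
  refine ⟨sg q * (sg a)⁻¹, h1, ?_⟩
  have h2 := congrArg (rescale (-1 : ℚ)) h1
  rw [map_mul, rescale_sx, rescale_sx, neg_one_mul, neg_one_mul, sx_neg, sx_neg, ← h1] at h2
  apply mul_left_cancel₀ (sx_ne_zero ha)
  linear_combination -h2

/-- the polynomial `κ X²` -/
def pk (κ : ℚ) : Polynomial ℚ := Polynomial.C κ * Polynomial.X ^ 2

/-- the polynomial `c X` -/
def pl (c : ℚ) : Polynomial ℚ := Polynomial.C c * Polynomial.X

theorem ml_comm_shift {κ b c : ℚ} (hc : c = 2 * κ * b) :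
    C (ml (ex b)) * Op (pl c) * Op (pk κ) =
      Op (pk κ) * C (ml (ex b)) * Op (Polynomial.C (-(κ * b ^ 2))) := by
  rw [← conj_ex, mul_assoc, mul_assoc, Op_mul, Op_mul]
  congr 2
  rw [pk, pl, hc]
  simp only [Polynomial.mul_comp, Polynomial.pow_comp, Polynomial.C_comp, Polynomial.X_comp,
    map_mul, map_neg, map_pow]
  have : (Polynomial.C (2 : ℚ)) = (2 : Polynomial ℚ) := rfl
  rw [this]
  ring

/-- the difference operator -/
def Ld (b c : ℚ) : PowerSeries OpX :=
  C (ml (ex b)) * Op (pl c) - C (ml (ex (-b))) * Op (pl (-c))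

theorem Ld_mul {κ b c : ℚ} (hc : c = 2 * κ * b) :
    Ld b c * Op (pk κ) = Op (pk κ) * C (ml (sx b)) * Op (Polynomial.C (-(κ * b ^ 2))) := by
  have h1 := ml_comm_shift hc
  have h2 := ml_comm_shift (κ := κ) (b := -b) (c := -c) (by rw [hc]; ring)
  rw [neg_sq] at h2
  rw [Ld, sub_mul, h1, h2, ← sub_mul, ← mul_sub, sx, map_sub ml, map_sub]

theorem Op_inv (P : Polynomial ℚ) : Op P * Op (-P) = 1 := by
  rw [Op_mul, add_neg_cancel, Op_zero]

theorem eps_Ld (m b c : ℚ) (F : PXH) :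
    eps m (act (Ld b c) F) = ex (m * b) * eps (m + c) F - ex (-(m * b)) * eps (m - c) F := by
  rw [Ld, act_sub, eps_sub, act_mul, act_mul, eps_act_ml, eps_act_ml, rescale_ex, rescale_ex, pl,
    pl, eps_shift, eps_shift, mul_neg, ← sub_eq_add_neg]

theorem coeff_zero_Ld (b c : ℚ) (F : PXH) : coeff 0 (act (Ld b c) F) = sx b * coeff 0 F := by
  rw [Ld, act_sub, map_sub, coeff_act_C_mul, coeff_act_C_mul, coeff_zero_act_Op,
    coeff_zero_act_Op, ml_apply, ml_apply, sx]
  ring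

theorem coeff_one_Ld (b c : ℚ) (F : PXH) :
    coeff 1 (act (Ld b c) F) = sx b * coeff 1 F + c • (cx b * D (coeff 0 F)) := by
  have h : ∀ c : ℚ, Polynomial.aeval D (pl c) = c • D := by
    intro c
    rw [pl, map_mul, Polynomial.aeval_C, Polynomial.aeval_X, Algebra.smul_def]
  rw [Ld, act_sub, map_sub, coeff_act_C_mul, coeff_act_C_mul, coeff_one_act_Op,
    coeff_one_act_Op, ml_apply, ml_apply, sx, cx, h, h, LinearMap.smul_apply,
    LinearMap.smul_apply]
  simp only [Algebra.smul_def, map_neg]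
  ring

/-- relation between the expansion of a knot and the expansion of its `(p, q)`-cable -/
structure LoopRel (p : ℕ) (q : ℤ) (F FC : PXH) : Prop where
  odd : scl (-1) FC = -FC
  eqn : ∀ m : ℚ, ex (m * (p * q)) * eps (m + 1) FC - ex (-(m * (p * q))) * eps (m - 1) FC =
    ex (m * q) * eps (p * m + 1) F - ex (-(m * q)) * eps (p * m - 1) F
  zero : sx (p * q) * coeff 0 FC = sx q * rescale (p : ℚ) (coeff 0 F)
  one : sx (p * q) * coeff 1 FC + cx (p * q) * D (coeff 0 FC) =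
    sx q * rescale (p : ℚ) (coeff 1 F) + cx q * rescale (p : ℚ) (D (coeff 0 F))

theorem exists_cable {p : ℕ} {q : ℤ} (hp : 0 < p) (hq : q ≠ 0) (F : PXH)
    (hF : scl (-1) F = -F) : ∃ FC, LoopRel p q F FC := by
  have hp0 : (p : ℚ) ≠ 0 := by exact_mod_cast hp.ne'
  have hq0 : (q : ℚ) ≠ 0 := by exact_mod_cast hq
  set a : ℚ := p * q with ha
  have ha0 : a ≠ 0 := mul_ne_zero hp0 hq0
  obtain ⟨w, hw, hw'⟩ := exists_w ha0 (q : ℚ)
  set κ : ℚ := 1 / (2 * a) with hκ
  have k1 : (1 : ℚ) = 2 * κ * a := by rw [hκ]; field_simp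
  have k2 : (1 : ℚ) / p = 2 * κ * q := by rw [hκ, ha]; field_simp
  set G : PXH := scl p F with hG
  have hGodd : scl (-1) G = -G := by
    have h1 : scl (-1) G = scl p (scl (-1) F) := by
      ext1 n
      simp only [hG, scl, coeff_map, rescale_rescale, mul_comm]
    rw [h1, hF]
    ext1 n
    simp [scl, hG]
  set T : PowerSeries OpX :=
    Op (pk κ) * C (ml w) * Op (-(pk κ)) * Op (Polynomial.C (κ * (a ^ 2 - q ^ 2))) with hT
  have key : Ld a 1 * T = Ld q (1 / p) := by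
    have hL := Ld_mul k1
    have hR := Ld_mul k2
    have e1 : Ld (q : ℚ) (1 / p) = Ld q (1 / p) * Op (pk κ) * Op (-(pk κ)) := by
      rw [mul_assoc, Op_inv, mul_one]
    rw [e1, hR, hT]
    have e2 : Ld a 1 * (Op (pk κ) * C (ml w) * Op (-(pk κ)) *
        Op (Polynomial.C (κ * (a ^ 2 - q ^ 2)))) =
        (Ld a 1 * Op (pk κ)) * (C (ml w) * (Op (-(pk κ)) *
        Op (Polynomial.C (κ * (a ^ 2 - q ^ 2))))) := by simp only [mul_assoc]
    rw [e2, hL]
    have e3 : Op (pk κ) * C (ml (sx a)) * Op (Polynomial.C (-(κ * a ^ 2))) *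
        (C (ml w) * (Op (-pk κ) * Op (Polynomial.C (κ * (a ^ 2 - q ^ 2))))) =
        Op (pk κ) * C (ml (sx a)) * (Op (Polynomial.C (-(κ * a ^ 2))) * C (ml w)) *
        (Op (-pk κ) * Op (Polynomial.C (κ * (a ^ 2 - q ^ 2)))) := by simp only [mul_assoc]
    rw [e3, Op_C_comm]
    have e4 : Op (pk κ) * C (ml (sx a)) * (C (ml w) * Op (Polynomial.C (-(κ * a ^ 2)))) *
        (Op (-pk κ) * Op (Polynomial.C (κ * (a ^ 2 - q ^ 2)))) =
        Op (pk κ) * (C (ml (sx a)) * C (ml w)) * (Op (Polynomial.C (-(κ * a ^ 2))) *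
        (Op (-pk κ) * Op (Polynomial.C (κ * (a ^ 2 - q ^ 2))))) := by simp only [mul_assoc]
    rw [e4, ← map_mul, ← map_mul, hw, Op_mul, Op_mul]
    have e5 : Op (pk κ) * C (ml (sx (q : ℚ))) * Op (Polynomial.C (-(κ * (q : ℚ) ^ 2))) *
        Op (-pk κ) = Op (pk κ) * C (ml (sx (q : ℚ))) *
        (Op (Polynomial.C (-(κ * (q : ℚ) ^ 2))) * Op (-pk κ)) := by simp only [mul_assoc]
    rw [e5, Op_mul]
    congr 2
    simp only [map_neg, map_mul, map_sub, map_pow]
    ring
  have main : act (Ld a 1) (act T G) = act (Ld q (1 / p)) G := by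
    rw [← act_mul, key]
  refine ⟨act T G, ?_, ?_, ?_, ?_⟩
  · have c1 : C (rs (-1)) * Op (pk κ) = Op (pk κ) * C (rs (-1)) := by
      apply conj_neg
      simp [pk]
    have c2 : C (rs (-1)) * Op (-pk κ) = Op (-pk κ) * C (rs (-1)) := by
      apply conj_neg
      simp [pk]
    have c3 : (C (rs (-1)) : PowerSeries OpX) * C (ml w) = C (ml w) * C (rs (-1)) := by
      rw [← map_mul, ← map_mul, rs_ml, hw']
    have c4 : C (rs (-1)) * T = T * C (rs (-1)) := by
      rw [hT]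
      calc C (rs (-1)) * (Op (pk κ) * C (ml w) * Op (-pk κ) *
            Op (Polynomial.C (κ * (a ^ 2 - q ^ 2))))
          = (C (rs (-1)) * Op (pk κ)) * (C (ml w) * (Op (-pk κ) *
            Op (Polynomial.C (κ * (a ^ 2 - q ^ 2))))) := by simp only [mul_assoc]
        _ = Op (pk κ) * ((C (rs (-1)) * C (ml w)) * (Op (-pk κ) *
            Op (Polynomial.C (κ * (a ^ 2 - q ^ 2))))) := by rw [c1]; simp only [mul_assoc]
        _ = Op (pk κ) * (C (ml w) * ((C (rs (-1)) * Op (-pk κ)) *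
            Op (Polynomial.C (κ * (a ^ 2 - q ^ 2))))) := by rw [c3]; simp only [mul_assoc]
        _ = Op (pk κ) * (C (ml w) * (Op (-pk κ) * (C (rs (-1)) *
            Op (Polynomial.C (κ * (a ^ 2 - q ^ 2)))))) := by rw [c2]; simp only [mul_assoc]
        _ = _ := by rw [← Op_C_comm]; simp only [mul_assoc]
    rw [← act_rs, ← act_mul, c4, act_mul, act_rs, hGodd, act_neg_right]
  · intro m
    have h1 := congrArg (eps m) main
    rw [eps_Ld, eps_Ld, hG, eps_scl, eps_scl] at h1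
    rw [h1]
    have h2 : (p : ℚ) * (m + 1 / p) = p * m + 1 := by field_simp
    have h3 : (p : ℚ) * (m - 1 / p) = p * m - 1 := by field_simp
    rw [h2, h3]
  · have h1 := congrArg (coeff 0) main
    rw [coeff_zero_Ld, coeff_zero_Ld] at h1
    rw [h1, hG, scl, coeff_map]
  · have h1 := congrArg (coeff 1) main
    rw [coeff_one_Ld, coeff_one_Ld, one_smul] at h1
    rw [h1, hG, scl, coeff_map, coeff_map, D_rescale]
    congr 1
    rw [mul_smul_comm, smul_smul, one_div, inv_mul_cancel₀ hp0, one_smul]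

end

end Pool.Agent.H765.IT
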