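import Mathlib
import Pool.Agent.H765.IT.Loop3
import Pool.Agent.H765.IT.Comb4

/-! From power series in `x` to Laurent series in `y = e^{2x}`. -/

namespace Pool.Agent.H765.IT

open PowerSeries

noncomputable section

/-- cabling on pairs in a field with element `y` and dilation `σ` -/
def stepK {k : Type*} [Field k] (y : k) (σ : k →+* k) (p : ℕ) (q : ℤ) (d : k × k) : k × k :=
  (q * cot y q - p * q * cot y (p * q) + p * σ d.1,
   σ d.2 + (cot y q - p * cot y (p * q)) * (σ d.1 - q * cot y (p * q)))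

/-- iterated version -/
def dataK {k : Type*} [Field k] (y : k) (σ : ℕ → k →+* k) (d0 : k × k) :
    List (ℕ × ℤ) → k × k
  | [] => d0
  | x :: t => stepK y (σ x.1) x.1 x.2 (dataK y σ d0 t)

theorem map_stepK {k k' : Type*} [Field k] [Field k'] (f : k →+* k') {y : k} {σ : k →+* k}
    {σ' : k' →+* k'} (h : ∀ u, f (σ u) = σ' (f u)) (p : ℕ) (q : ℤ) (d : k × k) :
    Prod.map f f (stepK y σ p q d) = stepK (f y) σ' p q (Prod.map f f d) := by
  simp only [stepK, Prod.map_apply, map_add, map_sub, map_mul, map_intCast, map_natCast, map_cot,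
    Prod.map_fst, Prod.map_snd, h]

theorem map_dataK {k k' : Type*} [Field k] [Field k'] (f : k →+* k') {y : k}
    {σ : ℕ → k →+* k} {σ' : ℕ → k' →+* k'} (h : ∀ p, 0 < p → ∀ u, f (σ p u) = σ' p (f u))
    (d0 : k × k) (l : List (ℕ × ℤ)) (hl : ∀ x ∈ l, 0 < x.1) :
    Prod.map f f (dataK y σ d0 l) = dataK (f y) σ' (Prod.map f f d0) l := by
  induction l with
  | nil => rfl
  | cons x t ih =>
    rw [dataK, dataK, map_stepK f (h x.1 (hl x (by simp))), ih (fun z hz => hl z (by simp [hz]))]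

theorem stepL_eq (p : ℕ) (q : ℤ) (d : L × L) : stepL p q d = stepK Y (dil p) p q d := by
  simp only [stepL, stepK, map_mul, map_intCast, map_natCast]

theorem dataL_eq (d0 : L × L) (l : List (ℕ × ℤ)) : dataL d0 l = dataK Y dil d0 l := by
  induction l with
  | nil => rfl
  | cons x t ih => rw [dataL, dataK, ih, stepL_eq]

/-! ### Three fields -/

/-- fractions of power series in `x` -/
abbrev Kx : Type := FractionRing PX

/-- the embedding of power series -/
def jx : PX →+* Kx := algebraMap PX Kx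

theorem jx_inj : Function.Injective jx := IsFractionRing.injective PX Kx

theorem jx_ne {u : PX} (h : u ≠ 0) : jx u ≠ 0 := by
  rw [Ne, map_eq_zero_iff _ jx_inj]; exact h

/-- `e^{2x}` -/
def yx : Kx := jx (ex 2)

theorem rescale_inj' {p : ℕ} (hp : 0 < p) :
    Function.Injective (rescale (p : ℚ) : PX →+* PX) :=
  rescale_injective (by exact_mod_cast hp.ne')

/-- dilation `x ↦ p x` -/
def sigx (p : ℕ) : Kx →+* Kx :=
  if hp : 0 < p then IsFractionRing.map (rescale_inj' hp) else RingHom.id Kx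

theorem sigx_jx {p : ℕ} (hp : 0 < p) (u : PX) : sigx p (jx u) = jx (rescale (p : ℚ) u) := by
  rw [sigx, dif_pos hp]
  exact IsLocalization.map_eq _ _

theorem ex_pow (b : ℚ) (n : ℕ) : ex b ^ n = ex (n * b) := by
  induction n with
  | zero => simp [ex_zero]
  | succ n ih => rw [pow_succ, ih, ex_mul]; congr 1; push_cast; ring

theorem sigx_yx {p : ℕ} (hp : 0 < p) : sigx p yx = yx ^ p := by
  rw [yx, sigx_jx hp, rescale_ex, ← map_pow, ex_pow]

theorem yx_zpow (b : ℤ) : yx ^ b = jx (ex (2 * b)) := by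
  have h : ∀ n : ℕ, yx ^ n = jx (ex (2 * n)) := by
    intro n
    rw [yx, ← map_pow, ex_pow, mul_comm]
  obtain ⟨n, rfl | rfl⟩ := b.eq_nat_or_neg
  · rw [zpow_natCast, h]; simp
  · rw [zpow_neg, zpow_natCast, h]
    apply inv_eq_of_mul_eq_one_right
    rw [← map_mul, ex_mul]
    push_cast
    rw [show 2 * (n : ℚ) + 2 * -(n : ℚ) = 0 by ring, ex_zero, map_one]

theorem cot_yx {b : ℤ} (hb : b ≠ 0) : cot yx b = jx (cx b) / jx (sx b) := by
  have hb' : (b : ℚ) ≠ 0 := by exact_mod_cast hb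
  have h1 : (ex (-(b : ℚ))) * (ex (2 * b) + 1) = cx b := by
    rw [mul_add, ex_mul, cx, mul_one]; congr 2; ring
  have h2 : (ex (-(b : ℚ))) * (ex (2 * b) - 1) = sx b := by
    rw [mul_sub, ex_mul, sx, mul_one]; congr 2; ring
  rw [cot, yx_zpow, ← h1, ← h2, map_mul, map_mul]
  have h3 : jx (ex (-(b : ℚ))) ≠ 0 := by
    apply jx_ne
    intro h0
    have := coeff_zero_ex (-(b : ℚ))
    rw [h0] at this
    simp at this
  rw [mul_div_mul_left _ _ h3, map_add, map_sub, map_one]

/-- logarithmic derivative of the leading term and the normalised second term -/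
def lamr (F : PXH) : Kx × Kx :=
  (jx (D (coeff 0 F)) / jx (coeff 0 F), jx (coeff 1 F) / jx (coeff 0 F))

theorem rescale_ne_zero {p : ℕ} (hp : 0 < p) {u : PX} (hu : u ≠ 0) : rescale (p : ℚ) u ≠ 0 := by
  rw [Ne, map_eq_zero_iff _ (rescale_inj' hp)]; exact hu

theorem LoopRel.ne_zero {p : ℕ} {q : ℤ} {F FC : PXH} (h : LoopRel p q F FC) (hp : 0 < p)
    (hq : q ≠ 0) (hF : coeff 0 F ≠ 0) : coeff 0 FC ≠ 0 := by
  intro h0
  have h1 := h.zero
  rw [h0, mul_zero] at h1
  have hq' : (q : ℚ) ≠ 0 := by exact_mod_cast hq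
  exact mul_ne_zero (sx_ne_zero hq') (rescale_ne_zero hp hF) h1.symm

theorem LoopRel.lamr_eq {p : ℕ} {q : ℤ} {F FC : PXH} (h : LoopRel p q F FC) (hp : 0 < p)
    (hq : q ≠ 0) (hF : coeff 0 F ≠ 0) : lamr FC = stepK yx (sigx p) p q (lamr F) := by
  have hq' : (q : ℚ) ≠ 0 := by exact_mod_cast hq
  have hp' : (p : ℚ) ≠ 0 := by exact_mod_cast hp.ne'
  have hpq : (p : ℤ) * q ≠ 0 := mul_ne_zero (by exact_mod_cast hp.ne') hq
  have hpq' : (p : ℚ) * q ≠ 0 := mul_ne_zero hp' hq'
  have h0 := h.zero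
  have h1 := h.one
  have hd := congrArg D h0
  rw [D_mul, D_mul, D_sx, D_sx, D_rescale] at hd
  have e0 := congrArg jx h0
  have e1 := congrArg jx h1
  have e2 := congrArg jx hd
  simp only [map_mul, map_add, Algebra.smul_def] at e0 e1 e2
  have hc : ∀ c : ℚ, jx (algebraMap ℚ PX c) = (c : Kx) := by
    intro c
    exact eq_ratCast (jx.comp (algebraMap ℚ PX)) c
  rw [hc] at e2
  simp only [hc] at e2
  have n1 : jx (sx (q : ℚ)) ≠ 0 := jx_ne (sx_ne_zero hq')
  have n2 : jx (sx ((p : ℚ) * q)) ≠ 0 := jx_ne (sx_ne_zero hpq')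
  have n3 : jx (rescale (p : ℚ) (coeff 0 F)) ≠ 0 := jx_ne (rescale_ne_zero hp hF)
  have n4 : jx (coeff 0 FC) ≠ 0 := jx_ne (h.ne_zero hp hq hF)
  have c1 : cot yx q = jx (cx q) / jx (sx q) := cot_yx hq
  have c2 : cot yx ((p : ℤ) * q) = jx (cx ((p : ℚ) * q)) / jx (sx ((p : ℚ) * q)) := by
    rw [cot_yx hpq]; push_cast; rfl
  have s1 : sigx p (jx (D (coeff 0 F)) / jx (coeff 0 F)) =
      jx (rescale (p : ℚ) (D (coeff 0 F))) / jx (rescale (p : ℚ) (coeff 0 F)) := by
    rw [map_div₀, sigx_jx hp, sigx_jx hp]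
  have s2 : sigx p (jx (coeff 1 F) / jx (coeff 0 F)) =
      jx (rescale (p : ℚ) (coeff 1 F)) / jx (rescale (p : ℚ) (coeff 0 F)) := by
    rw [map_div₀, sigx_jx hp, sigx_jx hp]
  simp only [lamr, stepK, c1, c2, s1, s2]
  generalize jx (sx (q : ℚ)) = sq at *
  generalize jx (cx (q : ℚ)) = cq at *
  generalize jx (sx ((p : ℚ) * q)) = sa at *
  generalize jx (cx ((p : ℚ) * q)) = ca at *
  generalize jx (coeff 0 FC) = A0 at *
  generalize jx (coeff 1 FC) = A1 at *
  generalize jx (D (coeff 0 FC)) = DA at *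
  generalize jx (rescale (p : ℚ) (coeff 0 F)) = B0 at *
  generalize jx (rescale (p : ℚ) (coeff 1 F)) = B1 at *
  generalize jx (rescale (p : ℚ) (D (coeff 0 F))) = DB at *
  push_cast at e2
  have l1 : DA / A0 = (q : Kx) * (cq / sq) - p * q * (ca / sa) + p * (DB / B0) := by
    have hA : A0 = sq * B0 / sa := by field_simp; linear_combination e0
    have hDA : DA = ((sq * (p * DB) + q * cq * B0) - p * q * ca * A0) / sa := by
      field_simp
      linear_combination e2
    rw [hDA, hA]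
    field_simp
    ring
  rw [Prod.mk.injEq]
  refine ⟨l1, ?_⟩
  have hA1 : A1 = (sq * B1 + cq * DB - ca * DA) / sa := by
    field_simp
    linear_combination e1
  have l2 : A1 / A0 = B1 / B0 + cq / sq * (DB / B0) - ca / sa * (DA / A0) := by
    have hA : A0 = sq * B0 / sa := by field_simp; linear_combination e0
    rw [hA1, hA]
    field_simp
  rw [l2, l1]
  ring

end

end Pool.Agent.H765.IT
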