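import Mathlib
import Pool.Agent.H765.IT.Bridge1

/-! Rational functions in `y` embed in both kinds of series. -/

namespace Pool.Agent.H765.IT

open PowerSeries

noncomputable section

theorem transc_aux {z : PX} (hz0 : constantCoeff z = 0) (hz : z ≠ 0) :
    ∀ (n : ℕ) (P : Polynomial ℚ), P.natDegree ≤ n → Polynomial.aeval z P = 0 → P = 0 := by
  intro n
  induction n with
  | zero =>
    intro P hP h
    obtain ⟨c, rfl⟩ : ∃ c, P = Polynomial.C c :=
      ⟨P.coeff 0, Polynomial.eq_C_of_natDegree_le_zero hP⟩
    rw [Polynomial.aeval_C] at h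
    have h1 := congrArg (coeff 0) h
    simp at h1
    rw [h1, map_zero]
  | succ n ih =>
    intro P hP h
    have h1 : P = P.divX * Polynomial.X + Polynomial.C (P.coeff 0) :=
      (Polynomial.divX_mul_X_add P).symm
    have h2 : P.coeff 0 = 0 := by
      rw [h1, map_add, map_mul, Polynomial.aeval_X, Polynomial.aeval_C] at h
      have h3 := congrArg constantCoeff h
      simp [hz0] at h3
      exact h3
    have h4 : Polynomial.aeval z P.divX = 0 := by
      rw [h1, h2, map_zero, add_zero, map_mul, Polynomial.aeval_X] at h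
      rcases mul_eq_zero.mp h with h5 | h5
      · exact h5
      · exact absurd h5 hz
    have h5 : P.divX.natDegree ≤ n := by
      rw [Polynomial.natDegree_divX_eq_natDegree_tsub_one]
      omega
    rw [h1, ih _ h5 h4, h2, map_zero, zero_mul, add_zero]

theorem ex_transc (P : Polynomial ℚ) (h : Polynomial.aeval (ex 2) P = 0) : P = 0 := by
  have h1 : Polynomial.aeval (ex 2 - 1) (P.comp (Polynomial.X + 1)) = 0 := by
    rw [Polynomial.aeval_comp]
    simpa using h
  have h2 := transc_aux (z := ex 2 - 1) (by
      rw [map_sub, ← coeff_zero_eq_constantCoeff_apply, coeff_zero_ex]; simp) (by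
      intro h0
      have := congrArg (coeff 1) h0
      rw [map_sub, coeff_ex] at this
      simp at this) _ _ le_rfl h1
  have h3 : (P.comp (Polynomial.X + 1)).comp (Polynomial.X - 1) = P := by
    rw [Polynomial.comp_assoc]
    simp
  rw [← h3, h2, Polynomial.zero_comp]

theorem aeval_yx_inj :
    Function.Injective ((Polynomial.aeval yx : Polynomial ℚ →ₐ[ℚ] Kx).toRingHom) := by
  rw [injective_iff_map_eq_zero]
  intro P h
  apply ex_transc
  apply jx_inj
  rw [map_zero, ← h]
  change jx _ = Polynomial.aeval yx P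
  have : (Polynomial.aeval yx : Polynomial ℚ →ₐ[ℚ] Kx).toRingHom =
      jx.comp (Polynomial.aeval (ex 2) : Polynomial ℚ →ₐ[ℚ] PX).toRingHom := by
    apply Polynomial.ringHom_ext'
    · exact RingHom.ext_rat _ _
    · simp [yx]
  exact (RingHom.congr_fun this P).symm

/-- `y ↦ e^{2x}` -/
def ix : RatFunc ℚ →+* Kx := IsFractionRing.lift aeval_yx_inj

theorem ix_X : ix RatFunc.X = yx := by
  rw [← RatFunc.algebraMap_X, ix, IsFractionRing.lift_algebraMap]
  simp

/-- evaluation of polynomials at the variable of Laurent series -/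
def evY : Polynomial ℚ →+* L := Polynomial.eval₂RingHom cst Y

theorem coeff_evY (P : Polynomial ℚ) (n : ℕ) : (evY P).coeff n = P.coeff n := by
  induction P using Polynomial.induction_on' with
  | add p q hp hq => rw [map_add, HahnSeries.coeff_add, hp, hq, Polynomial.coeff_add]
  | monomial i a =>
    rw [evY, Polynomial.coe_eval₂RingHom, Polynomial.eval₂_monomial, ← zpow_natCast, Y_zpow,
      coeff_cst_mul, Polynomial.coeff_monomial]
    by_cases h : i = n
    · subst h
      rw [HahnSeries.coeff_single_same, if_pos rfl, mul_one]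
    · rw [HahnSeries.coeff_single_of_ne (by exact_mod_cast (Ne.symm h)), if_neg h, mul_zero]

theorem evY_inj : Function.Injective evY := by
  rw [injective_iff_map_eq_zero]
  intro P h
  ext n
  rw [← coeff_evY, h, HahnSeries.coeff_zero, Polynomial.coeff_zero]

/-- expansion at `y = 0` -/
def iy : RatFunc ℚ →+* L := IsFractionRing.lift evY_inj

theorem iy_X : iy RatFunc.X = Y := by
  rw [← RatFunc.algebraMap_X, iy, IsFractionRing.lift_algebraMap]
  simp [evY]

theorem expand_inj {p : ℕ} (hp : 0 < p) :
    Function.Injective ((Polynomial.expand ℚ p : Polynomial ℚ →ₐ[ℚ] Polynomial ℚ).toRingHom) :=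
  Polynomial.expand_injective hp

/-- dilation `y ↦ y^p` -/
def sigr (p : ℕ) : RatFunc ℚ →+* RatFunc ℚ :=
  if hp : 0 < p then IsFractionRing.map (expand_inj hp) else RingHom.id _

theorem sigr_X {p : ℕ} (hp : 0 < p) : sigr p RatFunc.X = RatFunc.X ^ p := by
  rw [sigr, dif_pos hp, ← RatFunc.algebraMap_X]
  refine (IsLocalization.map_eq _ _).trans ?_
  change algebraMap _ _ (Polynomial.expand ℚ p Polynomial.X) = _
  rw [Polynomial.expand_X, map_pow]

theorem ratfunc_ext {k : Type*} [Field k] {f g : RatFunc ℚ →+* k}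
    (h : f RatFunc.X = g RatFunc.X) : f = g := by
  apply IsFractionRing.ringHom_ext (A := Polynomial ℚ)
  intro P
  have : f.comp (algebraMap (Polynomial ℚ) (RatFunc ℚ)) =
      g.comp (algebraMap (Polynomial ℚ) (RatFunc ℚ)) := by
    apply Polynomial.ringHom_ext'
    · exact RingHom.ext_rat _ _
    · simpa using h
  exact RingHom.congr_fun this P

theorem ix_sigr {p : ℕ} (hp : 0 < p) (u : RatFunc ℚ) : ix (sigr p u) = sigx p (ix u) := by
  have : ix.comp (sigr p) = (sigx p).comp ix := by
    apply ratfunc_ext
    simp only [RingHom.comp_apply, sigr_X hp, ix_X, sigx_yx hp, map_pow]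
  exact RingHom.congr_fun this u

theorem iy_sigr {p : ℕ} (hp : 0 < p) (u : RatFunc ℚ) : iy (sigr p u) = dil p (iy u) := by
  have : iy.comp (sigr p) = (dil p).comp iy := by
    apply ratfunc_ext
    simp only [RingHom.comp_apply, sigr_X hp, iy_X, dil_Y hp, map_pow]
  exact RingHom.congr_fun this u

/-- transfer: equality in `x` implies equality in `y` -/
theorem transfer (d : RatFunc ℚ × RatFunc ℚ) (l l' : List (ℕ × ℤ)) (hl : ∀ x ∈ l, 0 < x.1)
    (hl' : ∀ x ∈ l', 0 < x.1)
    (h : dataK yx sigx (Prod.map ix ix d) l = dataK yx sigx (Prod.map ix ix d) l') :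
    dataL (Prod.map iy iy d) l = dataL (Prod.map iy iy d) l' := by
  have e : dataK RatFunc.X sigr d l = dataK RatFunc.X sigr d l' := by
    have inj : Function.Injective (Prod.map ix ix) :=
      Function.Injective.prodMap ix.injective ix.injective
    apply inj
    rw [map_dataK ix (fun p hp u => ix_sigr hp u) d l hl,
      map_dataK ix (fun p hp u => ix_sigr hp u) d l' hl', ix_X, h]
  have e' := congrArg (Prod.map iy iy) e
  rw [map_dataK iy (fun p hp u => iy_sigr hp u) d l hl,
      map_dataK iy (fun p hp u => iy_sigr hp u) d l' hl', iy_X] at e'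
  rw [dataL_eq, dataL_eq, e']

end

end Pool.Agent.H765.IT
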