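import Mathlib
import Pool.Agent.H765.IT.Defs
import Pool.Agent.H765.IT.Bridge2

/-! The cabling formula satisfies the difference equation. -/

namespace Pool.Agent.H765.IT

open LaurentPolynomial

noncomputable section

theorem symSum_zero {R : Type*} [AddCommMonoid R] (f : ℤ → R) : symSum f 0 = 0 := by
  simp [symSum]

theorem symSum_one {R : Type*} [AddCommMonoid R] (f : ℤ → R) : symSum f 1 = f 0 := by
  simp [symSum]

theorem symSum_add_two {R : Type*} [AddCommMonoid R] (f : ℤ → R) (n : ℕ) :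
    symSum f (n + 2) = symSum f n + f (n + 1) + f (-(n + 1)) := by
  unfold symSum
  rw [Finset.sum_range_succ', Finset.sum_range_succ]
  congr 1
  · congr 1
    · apply Finset.sum_congr rfl
      intro i _
      congr 1
      push_cast
      ring
    · congr 1
      push_cast
      ring
  · congr 1
    push_cast
    ring

theorem cable_neg (p : ℕ) (q : ℤ) (J : ℤ → ℤ[T;T⁻¹]) (N : ℤ) :
    cable p q J (-N) = - cable p q J N := by
  unfold cable
  rw [Int.sign_neg, Int.natAbs_neg, neg_sq, neg_smul]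

theorem cable_natCast (p : ℕ) (q : ℤ) (J : ℤ → ℤ[T;T⁻¹]) (n : ℕ) :
    cable p q J n = T (-(p * q * ((n : ℤ) ^ 2 - 1))) *
      symSum (fun j => T (q * j * (p * j + 2)) * J (p * j + 1)) n := by
  unfold cable
  rcases Nat.eq_zero_or_pos n with h | h
  · subst h
    simp [symSum_zero]
  · rw [Int.sign_natCast_of_ne_zero h.ne', one_smul, Int.natAbs_natCast]

theorem qint_neg (N : ℤ) : qint (-N) = - qint N := by
  unfold qint
  rw [Int.sign_neg, Int.natAbs_neg, neg_smul]

theorem qint_natCast (n : ℕ) : qint n = symSum (fun j => T (2 * j)) n := by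
  unfold qint
  rcases Nat.eq_zero_or_pos n with h | h
  · subst h
    simp [symSum_zero]
  · rw [Int.sign_natCast_of_ne_zero h.ne', one_smul, Int.natAbs_natCast]

theorem qint_mul (N : ℤ) : (T 2 - T (-2)) * qint N = T (2 * N) - T (-(2 * N)) := by
  have h : ∀ n : ℕ, (T 2 - T (-2)) * qint n = (T (2 * n) - T (-(2 * n)) : ℤ[T;T⁻¹]) := by
    intro n
    rw [qint_natCast]
    induction n using Nat.strong_induction_on with
    | _ n ih =>
      match n, ih with
      | 0, _ => simp [symSum_zero]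
      | 1, _ => simp [symSum_one]
      | n + 2, ih =>
        rw [symSum_add_two, mul_add, mul_add, ih n (by omega), sub_mul, sub_mul, ← T_add, ← T_add,
          ← T_add, ← T_add]
        push_cast
        rw [show (2 : ℤ) + 2 * (n + 1) = 2 * (n + 2) by ring,
          show (-2 : ℤ) + 2 * (n + 1) = 2 * n by ring,
          show (2 : ℤ) + 2 * (-(n + 1)) = -(2 * n) by ring,
          show (-2 : ℤ) + 2 * (-(n + 1)) = -(2 * (n + 2)) by ring]
        ring
  obtain ⟨n, rfl | rfl⟩ := N.eq_nat_or_neg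
  · exact h n
  · rw [qint_neg, mul_neg, h n]
    rw [mul_neg, neg_neg]
    ring

/-- the difference equation of a cable -/
theorem cable_diff {p : ℕ} {q : ℤ} {J : ℤ → ℤ[T;T⁻¹]} (hJ : ∀ N, J (-N) = - J N) (m : ℤ) :
    T (2 * (p * q * m)) * cable p q J (m + 1) - T (-(2 * (p * q * m))) * cable p q J (m - 1) =
      T (2 * (q * m)) * J (p * m + 1) - T (-(2 * (q * m))) * J (p * m - 1) := by
  have h : ∀ n : ℕ, T (2 * (p * q * n)) * cable p q J (n + 1) -
      T (-(2 * (p * q * n))) * cable p q J (n - 1) =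
      T (2 * (q * n)) * J (p * n + 1) - T (-(2 * (q * n))) * J (p * n - 1) := by
    intro n
    rcases n with _ | n
    · have e1 : cable p q J (((0 : ℕ) : ℤ) + 1) = J 1 := by
        have := cable_natCast p q J 1
        simpa [symSum_one] using this
      have e2 : cable p q J (((0 : ℕ) : ℤ) - 1) = - J 1 := by
        have : (((0 : ℕ) : ℤ) - 1) = -(((0 : ℕ) : ℤ) + 1) := by simp
        rw [this, cable_neg, e1]
      rw [e1, e2]
      simp [hJ]
    · have e1 : (((n + 1 : ℕ) : ℤ) + 1) = ((n + 2 : ℕ) : ℤ) := by push_cast; ring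
      have e2 : (((n + 1 : ℕ) : ℤ) - 1) = ((n : ℕ) : ℤ) := by push_cast; ring
      have e3 : J (p * (-(((n : ℕ) : ℤ) + 1)) + 1) = - J (p * ((n + 1 : ℕ) : ℤ) - 1) := by
        rw [← hJ]; congr 1; push_cast; ring
      rw [e1, e2, cable_natCast, cable_natCast, symSum_add_two, e3]
      set S := symSum (fun j => T (q * j * (p * j + 2)) * J (p * j + 1)) n with hS
      have m1 : (T (2 * (p * q * ((n + 1 : ℕ) : ℤ))) : ℤ[T;T⁻¹]) *
          T (-(p * q * (((n + 2 : ℕ) : ℤ) ^ 2 - 1))) = T (-(p * q * ((n : ℤ) + 1) ^ 2)) := by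
        rw [← T_add]; congr 1; push_cast; ring
      have m2 : (T (-(2 * (p * q * ((n + 1 : ℕ) : ℤ)))) : ℤ[T;T⁻¹]) *
          T (-(p * q * ((n : ℤ) ^ 2 - 1))) = T (-(p * q * ((n : ℤ) + 1) ^ 2)) := by
        rw [← T_add]; congr 1; push_cast; ring
      have m3 : (T (-(p * q * ((n : ℤ) + 1) ^ 2)) : ℤ[T;T⁻¹]) *
          T (q * ((n : ℤ) + 1) * (p * ((n : ℤ) + 1) + 2)) = T (2 * (q * ((n + 1 : ℕ) : ℤ))) := by
        rw [← T_add]; congr 1; push_cast; ring
      have m4 : (T (-(p * q * ((n : ℤ) + 1) ^ 2)) : ℤ[T;T⁻¹]) *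
          T (q * (-((n : ℤ) + 1)) * (p * (-((n : ℤ) + 1)) + 2)) =
          T (-(2 * (q * ((n + 1 : ℕ) : ℤ)))) := by
        rw [← T_add]; congr 1; push_cast; ring
      have e4 : J (p * ((n : ℤ) + 1) + 1) = J (p * ((n + 1 : ℕ) : ℤ) + 1) := by
        congr 1
      rw [e4]
      linear_combination (S + T (q * ((n : ℤ) + 1) * (p * ((n : ℤ) + 1) + 2)) *
          J (p * ((n + 1 : ℕ) : ℤ) + 1) + T (q * (-((n : ℤ) + 1)) * (p * (-((n : ℤ) + 1)) + 2)) *
          (-J (p * ((n + 1 : ℕ) : ℤ) - 1))) * m1 - S * m2 + J (p * ((n + 1 : ℕ) : ℤ) + 1) * m3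
          - J (p * ((n + 1 : ℕ) : ℤ) - 1) * m4
  obtain ⟨n, rfl | rfl⟩ := m.eq_nat_or_neg
  · exact h n
  · have := h n
    have e1 : cable p q J (-(n : ℤ) + 1) = - cable p q J (n - 1) := by
      rw [← cable_neg]; congr 1; ring
    have e2 : cable p q J (-(n : ℤ) - 1) = - cable p q J (n + 1) := by
      rw [← cable_neg]; congr 1; ring
    have e3 : J (p * -(n : ℤ) + 1) = - J (p * n - 1) := by
      rw [← hJ]; congr 1; ring
    have e4 : J (p * -(n : ℤ) - 1) = - J (p * n + 1) := by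
      rw [← hJ]; congr 1; ring
    rw [e1, e2, e3, e4]
    simp only [mul_neg, neg_neg]
    linear_combination this

theorem cable_const_mul (c : ℤ[T;T⁻¹]) (p : ℕ) (q : ℤ) (J : ℤ → ℤ[T;T⁻¹]) :
    cable p q (fun N => c * J N) = fun N => c * cable p q J N := by
  funext N
  unfold cable
  rw [mul_smul_comm, mul_left_comm]
  congr 2
  unfold symSum
  rw [Finset.mul_sum]
  apply Finset.sum_congr rfl
  intro i _
  ring

theorem cables_const_mul (c : ℤ[T;T⁻¹]) (J : ℤ → ℤ[T;T⁻¹]) (l : List (ℕ × ℤ)) :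
    cables (fun N => c * J N) l = fun N => c * cables J l N := by
  induction l with
  | nil => rfl
  | cons x t ih =>
    change cable x.1 x.2 (cables (fun N => c * J N) t) = _
    rw [ih, cable_const_mul]
    rfl

/-! ### Evaluation -/

theorem ev_T (n : ℤ) : ev (T n) = ex (n / 2) := by
  have h : ∀ n : ℤ, ((uexp (1 / 2)) ^ n).val = hexp (n / 2) := by
    intro n
    have h1 : ∀ n : ℕ, ((uexp (1 / 2)) ^ n).val = hexp (n / 2) := by
      intro n
      rw [Units.val_pow_eq_pow_val]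
      change hexp (1 / 2) ^ n = _
      have := ex_pow (1 / 2) n
      change hexp (1 / 2) ^ n = hexp (n * (1 / 2)) at this
      rw [this]
      congr 1
      ring
    obtain ⟨k, rfl | rfl⟩ := n.eq_nat_or_neg
    · rw [zpow_natCast, h1]; simp
    · rw [zpow_neg, zpow_natCast]
      have h2 : uexp (1 / 2) ^ k = uexp (k / 2) := Units.ext (h1 k)
      rw [h2]
      change hexp (-(k / 2)) = _
      congr 1
      push_cast
      ring
  rw [ev, eval₂_T, h]
  rfl

/-- two odd solutions of the same difference equation agree -/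
theorem odd_unique {A B : ℤ → PX} {c : ℚ} (hA : ∀ m, A (-m) = -A m) (hB : ∀ m, B (-m) = -B m)
    (h : ∀ m : ℤ, ex (m * c) * A (m + 1) - ex (-(m * c)) * A (m - 1) =
      ex (m * c) * B (m + 1) - ex (-(m * c)) * B (m - 1)) : A = B := by
  have unit : ∀ b : ℚ, ex b * ex (-b) = 1 := by
    intro b; rw [ex_mul, add_neg_cancel, ex_zero]
  have htwo : (2 : PX) ≠ 0 := by
    intro h0
    have h1 : (PowerSeries.C (2 : ℚ)) = 0 := by rw [← h0]; rfl
    rw [← map_zero (PowerSeries.C (R := ℚ))] at h1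
    exact absurd (PowerSeries.C_injective h1) (by norm_num)
  have zero : ∀ C : ℤ → PX, (∀ m, C (-m) = -C m) → C 0 = 0 := by
    intro C hC
    have h1 := hC 0
    rw [neg_zero] at h1
    have h2 : (2 : PX) * C 0 = 0 := by linear_combination h1
    rcases mul_eq_zero.mp h2 with h3 | h3
    · exact absurd h3 htwo
    · exact h3
  have key : ∀ n : ℕ, A n = B n := by
    intro n
    induction n using Nat.strong_induction_on with
    | _ n ih =>
      match n, ih with
      | 0, _ => simp [zero A hA, zero B hB]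
      | 1, _ =>
        have h1 := h 0
        have e1 : A (0 - 1) = - A 1 := by rw [← hA]; rfl
        have e2 : B (0 - 1) = - B 1 := by rw [← hB]; rfl
        rw [e1, e2] at h1
        simp only [Int.cast_zero, zero_mul, neg_zero, ex_zero, one_mul, zero_add] at h1
        have h2 : (2 : PX) * (A 1 - B 1) = 0 := by linear_combination h1
        rcases mul_eq_zero.mp h2 with h3 | h3
        · exact absurd h3 htwo
        · simpa using sub_eq_zero.mp h3
      | n + 2, ih =>
        have h1 := h (n + 1 : ℤ)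
        have e1 : ((n : ℤ) + 1 - 1) = (n : ℤ) := by ring
        have e2 : ((n : ℤ) + 1 + 1) = ((n + 2 : ℕ) : ℤ) := by push_cast; ring
        rw [e1, e2, ih n (by omega)] at h1
        set u := ex (((n : ℤ) + 1 : ℤ) * c) with hu
        have h2 := unit (((n : ℤ) + 1 : ℤ) * c)
        rw [← hu] at h2
        set u' := ex (-(((n : ℤ) + 1 : ℤ) * c))
        have h3 : u * A ((n + 2 : ℕ) : ℤ) = u * B ((n + 2 : ℕ) : ℤ) := by
          linear_combination h1
        calc A ((n + 2 : ℕ) : ℤ) = u' * (u * A ((n + 2 : ℕ) : ℤ)) := by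
              linear_combination (-A ((n + 2 : ℕ) : ℤ)) * h2
          _ = u' * (u * B ((n + 2 : ℕ) : ℤ)) := by rw [h3]
          _ = B ((n + 2 : ℕ) : ℤ) := by linear_combination (B ((n + 2 : ℕ) : ℤ)) * h2
  funext m
  obtain ⟨n, rfl | rfl⟩ := m.eq_nat_or_neg
  · exact key n
  · rw [hA, hB, key n]

/-- `F` is the two-variable expansion of the sequence `J` -/
def HasExp (J : ℤ → ℤ[T;T⁻¹]) (F : PXH) : Prop := ∀ N : ℤ, ev (J N) = eps N F

theorem eps_odd {F : PXH} (h : scl (-1) F = -F) (m : ℚ) : eps (-m) F = - eps m F := by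
  rw [← eps_neg, ← h, eps_scl]; congr 1; ring

theorem HasExp.odd {J : ℤ → ℤ[T;T⁻¹]} {F : PXH} (hJ : ∀ N, J (-N) = - J N) (h : HasExp J F) :
    scl (-1) F = -F := by
  apply eps_inj
  intro n
  rw [eps_scl, eps_neg]
  have h1 := h (-(n : ℤ))
  have h2 := h (n : ℤ)
  rw [hJ, map_neg] at h1
  rw [h2] at h1
  push_cast at h1
  rw [neg_one_mul, ← h1]

theorem HasExp.cable {J : ℤ → ℤ[T;T⁻¹]} {F FC : PXH} {p : ℕ} {q : ℤ}
    (hJ : ∀ N, J (-N) = - J N) (h : HasExp J F) (hr : LoopRel p q F FC) :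
    HasExp (cable p q J) FC := by
  have key : (fun N : ℤ => ev (Pool.Agent.H765.IT.cable p q J N)) = fun N : ℤ => eps N FC := by
    apply odd_unique (c := (p : ℚ) * q)
    · intro m
      rw [cable_neg, map_neg]
    · intro m
      push_cast
      exact eps_odd hr.odd _
    · intro m
      have h1 := congrArg ev (cable_diff (p := p) (q := q) hJ m)
      simp only [map_sub, map_mul, ev_T] at h1
      have h2 := hr.eqn (m : ℚ)
      have e1 := h (p * m + 1)
      have e2 := h (p * m - 1)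
      push_cast at e1 e2 h1 ⊢
      rw [h2, ← e1, ← e2]
      have c1 : (2 : ℚ) * ((p : ℚ) * q * m) / 2 = m * (p * q) := by ring
      have c2 : -((2 : ℚ) * ((p : ℚ) * q * m)) / 2 = -(m * (p * q)) := by ring
      have c3 : (2 : ℚ) * ((q : ℚ) * m) / 2 = m * q := by ring
      have c4 : -((2 : ℚ) * ((q : ℚ) * m)) / 2 = -(m * q) := by ring
      rw [c1, c2, c3, c4] at h1
      exact h1
  intro N
  exact congrFun key N

theorem cables_neg (J : ℤ → ℤ[T;T⁻¹]) (hJ : ∀ N, J (-N) = - J N) (l : List (ℕ × ℤ)) (N : ℤ) :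
    cables J l (-N) = - cables J l N := by
  cases l with
  | nil => exact hJ N
  | cons x t => exact cable_neg _ _ _ _

/-- expansions of iterated cables -/
theorem exists_cables {J : ℤ → ℤ[T;T⁻¹]} {F : PXH} (hJ : ∀ N, J (-N) = - J N)
    (h : HasExp J F) (hF : PowerSeries.coeff 0 F ≠ 0) (l : List (ℕ × ℤ))
    (hl : ∀ x ∈ l, 0 < x.1 ∧ x.2 ≠ 0) :
    ∃ FC, HasExp (cables J l) FC ∧ PowerSeries.coeff 0 FC ≠ 0 ∧
      lamr FC = dataK yx sigx (lamr F) l := by
  induction l with
  | nil => exact ⟨F, h, hF, rfl⟩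
  | cons x t ih =>
    obtain ⟨G, hG1, hG2, hG3⟩ := ih (fun z hz => hl z (by simp [hz]))
    obtain ⟨h1, h2⟩ := hl x (by simp)
    have hodd := hG1.odd (cables_neg J hJ t)
    obtain ⟨FC, hFC⟩ := exists_cable h1 h2 G hodd
    refine ⟨FC, hG1.cable (cables_neg J hJ t) hFC, hFC.ne_zero h1 h2 hG2, ?_⟩
    rw [hFC.lamr_eq h1 h2 hG2, hG3]
    rfl

/-- main transfer statement: equal coloured Jones functions give equal data at `y = 0` -/
theorem data_eq_of_jones_eq {J : ℤ → ℤ[T;T⁻¹]} {F : PXH} (hJ : ∀ N, J (-N) = - J N)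
    (h : HasExp J F) (hF : PowerSeries.coeff 0 F ≠ 0) (d : RatFunc ℚ × RatFunc ℚ)
    (hd : lamr F = Prod.map ix ix d) (l l' : List (ℕ × ℤ))
    (hl : ∀ x ∈ l, 0 < x.1 ∧ x.2 ≠ 0) (hl' : ∀ x ∈ l', 0 < x.1 ∧ x.2 ≠ 0)
    (heq : ∀ N : ℤ, ev (cables J l N) = ev (cables J l' N)) :
    dataL (Prod.map iy iy d) l = dataL (Prod.map iy iy d) l' := by
  obtain ⟨G, g1, g2, g3⟩ := exists_cables hJ h hF l hl
  obtain ⟨G', g1', g2', g3'⟩ := exists_cables hJ h hF l' hl'
  have e : G = G' := by
    apply eps_inj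
    intro n
    have e1 := g1 n
    have e2 := g1' n
    rw [heq n] at e1
    rw [e1] at e2
    exact_mod_cast e2
  apply transfer d l l' (fun x hx => (hl x hx).1) (fun x hx => (hl' x hx).1)
  rw [← hd, ← g3, ← g3', e]

end

end Pool.Agent.H765.IT
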