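import Mathlib
import Pool.Agent.H765.IT.Jones

/-! Comparison of iterated cables over two different companions. -/

namespace Pool.Agent.H765.IT

open LaurentPolynomial

noncomputable section

/-! ### Cabling is injective on expansions -/

theorem coeff_act_of_lower {Φ : PowerSeries OpX} {G : PXH} {n : ℕ}
    (h : ∀ k < n, PowerSeries.coeff k G = 0) :
    PowerSeries.coeff n (act Φ G) = (PowerSeries.coeff 0 Φ) (PowerSeries.coeff n G) := by
  rw [coeff_act, Finset.sum_eq_single (0, n)]
  · rintro ⟨i, j⟩ hij hne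
    rw [Finset.HasAntidiagonal.mem_antidiagonal] at hij
    simp only at hij ⊢
    have hj : j < n := by
      rcases Nat.lt_or_ge j n with h1 | h1
      · exact h1
      · exfalso
        apply hne
        have : j = n := by omega
        have : i = 0 := by omega
        simp_all
    rw [h j hj, map_zero]
  · intro hni
    exact absurd (by rw [Finset.HasAntidiagonal.mem_antidiagonal]; simp) hni

theorem coeff_zero_Ld_op (b c : ℚ) : PowerSeries.coeff 0 (Ld b c) = ml (sx b) := by
  rw [Ld, map_sub, PowerSeries.coeff_C_mul, PowerSeries.coeff_C_mul, coeff_Op, coeff_Op]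
  simp only [Nat.factorial_zero, Nat.cast_one, div_one, pow_zero, one_smul, mul_one]
  rw [sx, map_sub]

theorem Ld_inj {b c : ℚ} (hb : b ≠ 0) {G : PXH} (h : act (Ld b c) G = 0) : G = 0 := by
  ext1 n
  induction n using Nat.strong_induction_on with
  | _ n ih =>
    have h1 := congrArg (PowerSeries.coeff n) h
    rw [coeff_act_of_lower (fun k hk => by rw [ih k hk, map_zero]), coeff_zero_Ld_op,
      ml_apply, map_zero] at h1
    rcases mul_eq_zero.mp h1 with h2 | h2
    · exact absurd h2 (sx_ne_zero hb)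
    · rw [h2, map_zero]

theorem act_sub_right (Φ : PowerSeries OpX) (F G : PXH) : act Φ (F - G) = act Φ F - act Φ G := by
  ext1 n
  rw [map_sub, coeff_act, coeff_act, coeff_act, ← Finset.sum_sub_distrib]
  apply Finset.sum_congr rfl
  intro ij _
  rw [map_sub, map_sub]

theorem scl_inj {p : ℕ} (hp : 0 < p) {F : PXH} (h : scl p F = 0) : F = 0 := by
  ext1 n
  have h1 := congrArg (PowerSeries.coeff n) h
  rw [scl, PowerSeries.coeff_map, map_zero] at h1
  rw [map_zero]
  apply rescale_inj' hp
  rw [h1, map_zero]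

theorem LoopRel.inj {p : ℕ} {q : ℤ} {F F' FC : PXH} (hp : 0 < p) (hq : q ≠ 0)
    (h : LoopRel p q F FC) (h' : LoopRel p q F' FC) : F = F' := by
  have hp0 : (p : ℚ) ≠ 0 := by exact_mod_cast hp.ne'
  have hq0 : (q : ℚ) ≠ 0 := by exact_mod_cast hq
  have key : act (Ld q (1 / p)) (scl p (F - F')) = 0 := by
    apply eps_inj
    intro n
    have e1 := h.eqn (n : ℚ)
    have e2 := h'.eqn (n : ℚ)
    rw [e1] at e2
    have h0 : eps (n : ℚ) (0 : PXH) = 0 := by
      have := eps_sub (n : ℚ) (0 : PXH) 0
      simpa using this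
    rw [h0, eps_Ld, eps_scl, eps_scl, eps_sub, eps_sub]
    have h2 : (p : ℚ) * (n + 1 / p) = p * n + 1 := by field_simp
    have h3 : (p : ℚ) * (n - 1 / p) = p * n - 1 := by field_simp
    rw [h2, h3]
    linear_combination e2
  exact sub_eq_zero.mp (scl_inj hp (Ld_inj hq0 key))

/-! ### Knot data -/

/-- An odd sequence of Laurent polynomials together with its expansion and its rational data. -/
structure KData where
  /-- the sequence -/
  J : ℤ → ℤ[T;T⁻¹]
  /-- its expansion -/
  F : PXH
  /-- rational functions describing the first two terms -/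
  r : RatFunc ℚ × RatFunc ℚ
  odd : ∀ N, J (-N) = - J N
  exp : HasExp J F
  ne : PowerSeries.coeff 0 F ≠ 0
  rat : lamr F = Prod.map ix ix r

/-- data at `y = 0` -/
def KData.d (K : KData) : L × L := Prod.map iy iy K.r

/-- expansion of iterated cables, chosen step by step -/
theorem KData.exists_chain (K : KData) (l : List (ℕ × ℤ)) (hl : ∀ x ∈ l, 0 < x.1 ∧ x.2 ≠ 0) :
    ∃ FC, HasExp (cables K.J l) FC ∧ PowerSeries.coeff 0 FC ≠ 0 ∧
      lamr FC = dataK yx sigx (lamr K.F) l :=
  exists_cables K.odd K.exp K.ne l hl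

theorem exp_unique {J : ℤ → ℤ[T;T⁻¹]} {F G : PXH} (h : HasExp J F) (h' : HasExp J G) :
    F = G := by
  apply eps_inj
  intro n
  have e1 := h n
  have e2 := h' n
  rw [e1] at e2
  exact_mod_cast e2

theorem exp_congr {J J' : ℤ → ℤ[T;T⁻¹]} {F F' : PXH} (h : HasExp J F) (h' : HasExp J' F')
    (he : ∀ N : ℤ, ev (J N) = ev (J' N)) : F = F' := by
  apply eps_inj
  intro n
  have e1 := h n
  have e2 := h' n
  rw [← he, e1] at e2
  exact_mod_cast e2

/-- cabling is injective on coloured Jones functions having an expansion -/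
theorem ev_cable_inj {J J' : ℤ → ℤ[T;T⁻¹]} {F F' : PXH} {p : ℕ} {q : ℤ} (hp : 0 < p)
    (hq : q ≠ 0) (hJ : ∀ N, J (-N) = - J N) (hJ' : ∀ N, J' (-N) = - J' N)
    (h : HasExp J F) (h' : HasExp J' F')
    (he : ∀ N : ℤ, ev (cable p q J N) = ev (cable p q J' N)) :
    ∀ N : ℤ, ev (J N) = ev (J' N) := by
  obtain ⟨FC, hFC⟩ := exists_cable hp hq F (h.odd hJ)
  obtain ⟨FC', hFC'⟩ := exists_cable hp hq F' (h'.odd hJ')
  have e : FC = FC' := exp_congr (h.cable hJ hFC) (h'.cable hJ' hFC') he
  rw [← e] at hFC'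
  have e' : F = F' := hFC.inj hp hq hFC'
  intro N
  rw [h N, h' N, e']

theorem data_transfer {r r' : RatFunc ℚ × RatFunc ℚ} {l l' : List (ℕ × ℤ)}
    (hl : ∀ x ∈ l, 0 < x.1) (hl' : ∀ x ∈ l', 0 < x.1)
    (h : dataK yx sigx (Prod.map ix ix r) l = dataK yx sigx (Prod.map ix ix r') l') :
    dataL (Prod.map iy iy r) l = dataL (Prod.map iy iy r') l' := by
  have e : dataK RatFunc.X sigr r l = dataK RatFunc.X sigr r' l' := by
    have inj : Function.Injective (Prod.map ix ix) :=
      Function.Injective.prodMap ix.injective ix.injective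
    apply inj
    rw [map_dataK ix (fun p hp u => ix_sigr hp u) r l hl,
      map_dataK ix (fun p hp u => ix_sigr hp u) r' l' hl', ix_X, h]
  have e' := congrArg (Prod.map iy iy) e
  rw [map_dataK iy (fun p hp u => iy_sigr hp u) r l hl,
      map_dataK iy (fun p hp u => iy_sigr hp u) r' l' hl', iy_X] at e'
  rw [dataL_eq, dataL_eq, e']

theorem KData.data_eq (K K' : KData) (l l' : List (ℕ × ℤ)) (hl : ∀ x ∈ l, 0 < x.1 ∧ x.2 ≠ 0)
    (hl' : ∀ x ∈ l', 0 < x.1 ∧ x.2 ≠ 0)
    (he : ∀ N : ℤ, ev (cables K.J l N) = ev (cables K'.J l' N)) :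
    dataL K.d l = dataL K'.d l' := by
  obtain ⟨G, g1, g2, g3⟩ := K.exists_chain l hl
  obtain ⟨G', g1', g2', g3'⟩ := K'.exists_chain l' hl'
  have e : G = G' := exp_congr g1 g1' he
  apply data_transfer (fun x hx => (hl x hx).1) (fun x hx => (hl' x hx).1)
  rw [← K.rat, ← K'.rat, ← g3, ← g3', e]

/-! ### Bases -/

/-- the base is the unknot (at the level of data), or it does not look like a cable -/
def Base (d : L × L) : Prop :=
  d = (cot Y 1, 0) ∨
    ∀ (P : ℕ) (b : ℤ), 2 ≤ P → b ≠ 0 → IsCoprime (P : ℤ) b → ¬ Supp P (d.1 - cst b * cot Y b)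

theorem Base.of_type {d : L × L} (hd : Base d) {P : ℕ} {b : ℤ} {κ : ℚ} (t : IsType P b κ d) :
    d = (cot Y 1, 0) := by
  rcases hd with h | h
  · exact h
  · exact absurd t.suppM (h P b t.two_le t.ne t.cop)

theorem gamma_unknot : (cot Y 1).coeff 0 = -1 := by
  rw [coeff_zero_cot one_ne_zero]; simp

theorem pair_aux (K K' : KData) (hb : Base K.d) (hb' : Base K'.d)
    (hg : -1 ≤ K.d.1.coeff 0) (hg' : -1 ≤ K'.d.1.coeff 0) (l : List (ℕ × ℤ)) :
    ∀ (l' : List (ℕ × ℤ)), (∀ x ∈ l, Adm x) → (∀ x ∈ l', Adm x) →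
    NonDeg (K.d.1.coeff 0) l → NonDeg (K'.d.1.coeff 0) l' →
    (∀ N : ℤ, ev (cables K.J l N) = ev (cables K'.J l' N)) →
    (l = l' ∧ ∀ N : ℤ, ev (K.J N) = ev (K'.J N)) ∨
      (K.d = (cot Y 1, 0) ∧ K'.d = (cot Y 1, 0) ∧ SwapRel l l') := by
  have pos : ∀ l : List (ℕ × ℤ), (∀ x ∈ l, Adm x) → ∀ x ∈ l, 0 < x.1 ∧ x.2 ≠ 0 := by
    intro l hl x hx
    obtain ⟨h1, h2, _⟩ := hl x hx
    exact ⟨by omega, h2⟩
  -- a base is not a nontrivial cable of the other base
  have key : ∀ (K K' : KData), Base K.d → -1 ≤ K'.d.1.coeff 0 → ∀ (x : ℕ × ℤ)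
      (t : List (ℕ × ℤ)), (∀ y ∈ x :: t, Adm y) → NonDeg (K'.d.1.coeff 0) (x :: t) →
      K.d ≠ dataL K'.d (x :: t) := by
    intro K K' hb hg' x t ha hn h
    obtain ⟨h2, hq, hc⟩ := ha x (by simp)
    have ty := stepL_type h2 hq hc (dataL K'.d t)
    rw [dataL] at h
    rw [← h] at ty
    have hu := hb.of_type ty
    have hlt := gamma_lt rfl hg' (x :: t) ha hn (by simp)
    rw [dataL, ← h, hu, gamma_unknot] at hlt
    linarith
  induction l with
  | nil =>
    intro l' ha ha' hn hn' h
    cases l' with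
    | nil => left; exact ⟨rfl, h⟩
    | cons x t =>
      have := K.data_eq K' [] (x :: t) (pos _ ha) (pos _ ha') h
      exact absurd this (key K K' hb hg' x t ha' hn')
  | cons x t ih =>
    intro l' ha ha' hn hn' h
    cases l' with
    | nil =>
      have := K.data_eq K' (x :: t) [] (pos _ ha) (pos _ ha') h
      exact absurd this.symm (key K' K hb' hg x t ha hn)
    | cons x' t' =>
      have hd := K.data_eq K' (x :: t) (x' :: t') (pos _ ha) (pos _ ha') h
      obtain ⟨h2, hq, hc⟩ := ha x (by simp)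
      obtain ⟨h2', hq', hc'⟩ := ha' x' (by simp)
      have hgp := gamma_add_pos rfl hg x t ha hn
      have hgp' := gamma_add_pos rfl hg' x' t' ha' hn'
      have hat : ∀ z ∈ t, Adm z := fun z hz => ha z (by simp [hz])
      have hat' : ∀ z ∈ t', Adm z := fun z hz => ha' z (by simp [hz])
      have hnt : NonDeg (K.d.1.coeff 0) t := by
        cases t with
        | nil => intro z hz; simp at hz
        | cons y t => exact hn.tail
      have hnt' : NonDeg (K'.d.1.coeff 0) t' := by
        cases t' with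
        | nil => intro z hz; simp at hz
        | cons y t => exact hn'.tail
      rw [dataL, dataL] at hd
      by_cases he : |x.2| = |x'.2|
      · obtain ⟨e1, e2, e3⟩ := lemmaA h2 h2' hq hq' hc hc' hd he hgp
        have ex : x = x' := Prod.ext e1 e2
        subst ex
        obtain ⟨G, g1, -, -⟩ := K.exists_chain t (pos _ hat)
        obtain ⟨G', g1', -, -⟩ := K'.exists_chain t' (pos _ hat')
        have hin := ev_cable_inj (p := x.1) (q := x.2) (by omega) hq
          (cables_neg K.J K.odd t) (cables_neg K'.J K'.odd t') g1 g1' h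
        rcases ih t' hat hat' hnt hnt' hin with ⟨h5, h6⟩ | ⟨h5, h6, h7⟩
        · left
          exact ⟨by rw [h5], h6⟩
        · right
          refine ⟨h5, h6, ?_⟩
          obtain ⟨m, p, q, e4, e5⟩ := h7
          exact ⟨x :: m, p, q, by rw [e4]; rfl, by rw [e5]; rfl⟩
      · obtain ⟨b, hbq, hbq', c1, c2, ty⟩ := lemmaC h2 h2' hq hq' hc hc' hd he
        obtain ⟨b₂, hb₂, hb₂', c1', c2', ty'⟩ :=
          lemmaC h2' h2 hq' hq hc' hc hd.symm (Ne.symm he)
        have ht : t = [] := by
          cases t with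
          | nil => rfl
          | cons y t =>
            exfalso
            obtain ⟨h7, h8, h9⟩ := hat y (by simp)
            have := gamma_add_pos rfl hg y t hat hnt
            exact lemmaD h2 h7 h8 h9 c1 c2 this ty
        have ht' : t' = [] := by
          cases t' with
          | nil => rfl
          | cons y t =>
            exfalso
            obtain ⟨h7, h8, h9⟩ := hat' y (by simp)
            have := gamma_add_pos rfl hg' y t hat' hnt'
            exact lemmaD h2' h7 h8 h9 c1' c2' this ty'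
        subst ht ht'
        rw [dataL] at ty ty' hd
        have u1 := hb.of_type ty
        have u2 := hb'.of_type ty'
        right
        refine ⟨u1, u2, ?_⟩
        have hd' : dataL (cot Y 1, (0 : L)) [x] = dataL (cot Y 1, (0 : L)) [x'] := by
          rw [dataL, dataL, dataL]
          rw [dataL, u1, u2] at hd
          exact hd
        have hn1 : NonDeg (-1) [x] := by rw [u1, gamma_unknot] at hn; exact hn
        have hn2 : NonDeg (-1) [x'] := by rw [u2, gamma_unknot] at hn'; exact hn'
        rcases dataL_injective (d0 := (cot Y 1, (0 : L))) gamma_unknot le_rfl [x] [x'] ha ha'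
          hn1 hn2 hd' with h8 | ⟨_, h8⟩
        · exfalso
          simp only [List.cons.injEq, and_true] at h8
          rw [h8] at he
          exact he rfl
        · exact h8

end

end Pool.Agent.H765.IT
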