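import Mathlib
import Pool.Agent.H765.IT.Pair
import Pool.Agent.H765.IT.Euler

/-! Knot data from the Melvin–Morton–Rozansky expansion and the Alexander polynomial. -/

namespace Pool.Agent.H765.IT

open LaurentPolynomial

noncomputable section

/-- ring homomorphisms from Laurent polynomials are determined by their values at `T n` -/
theorem lp_ext {k : Type*} [CommRing k] {f g : ℤ[T;T⁻¹] →+* k}
    (h : ∀ n : ℤ, f (T n) = g (T n)) : f = g := by
  refine RingHom.ext fun u => ?_
  induction u using LaurentPolynomial.induction_on' with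
  | add p q hp hq => rw [map_add, map_add, hp, hq]
  | C_mul_T n a =>
    rw [map_mul, map_mul, h]
    have e : (C a : ℤ[T;T⁻¹]) = ((a : ℤ) : ℤ[T;T⁻¹]) := by simp
    rw [e, map_intCast, map_intCast]

theorem coeff_C_mul_T' (a m n : ℤ) :
    (C a * T m : ℤ[T;T⁻¹]).coeff n = if m = n then a else 0 := by
  rw [← single_eq_C_mul_T]
  exact Finsupp.single_apply

theorem map_C_mul_T {k : Type*} [CommRing k] (f : ℤ[T;T⁻¹] →+* k) (a m : ℤ) :
    f (C a * T m) = (a : k) * f (T m) := by
  have e : (C a : ℤ[T;T⁻¹]) = ((a : ℤ) : ℤ[T;T⁻¹]) := by simp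
  rw [map_mul, e, map_intCast]

/-- evaluation in Laurent series -/
def alL : ℤ[T;T⁻¹] →+* L := eval₂ (Int.castRingHom L) (Units.mk0 Y Y_ne)

theorem alL_T (n : ℤ) : alL (T n) = Y ^ n := by
  rw [alL, eval₂_T, Units.val_zpow_eq_zpow_val, Units.val_mk0]

theorem coeff_alL (f : ℤ[T;T⁻¹]) (n : ℤ) : (alL f).coeff n = f.coeff n := by
  induction f using LaurentPolynomial.induction_on' with
  | add p q hp hq =>
    rw [map_add, HahnSeries.coeff_add, hp, hq]
    simp
  | C_mul_T m a =>
    have e2 : ((a : ℤ) : L) = cst a := by rw [map_intCast]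
    rw [map_C_mul_T, alL_T, Y_zpow, e2, coeff_cst_mul, coeff_C_mul_T']
    by_cases h : n = m
    · subst h
      rw [HahnSeries.coeff_single_same, if_pos rfl, mul_one]
    · rw [HahnSeries.coeff_single_of_ne h, if_neg (Ne.symm h), mul_zero, Int.cast_zero]

theorem alL_inj : Function.Injective alL := by
  intro f g h
  apply LaurentPolynomial.ext
  intro n
  have := congrArg (fun u : L => u.coeff n) h
  simp only [coeff_alL] at this
  exact_mod_cast this

/-- evaluation in rational functions -/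
def alR : ℤ[T;T⁻¹] →+* RatFunc ℚ :=
  eval₂ (Int.castRingHom (RatFunc ℚ)) (Units.mk0 RatFunc.X RatFunc.X_ne_zero)

theorem alR_T (n : ℤ) : alR (T n) = RatFunc.X ^ n := by
  rw [alR, eval₂_T, Units.val_zpow_eq_zpow_val, Units.val_mk0]

theorem iy_alR (f : ℤ[T;T⁻¹]) : iy (alR f) = alL f := by
  have : iy.comp alR = alL := by
    apply lp_ext
    intro n
    rw [RingHom.comp_apply, alR_T, map_zpow₀, iy_X, alL_T]
  exact RingHom.congr_fun this f

theorem uexp_zpow (b : ℚ) (n : ℤ) : ((uexp b) ^ n).val = hexp (n * b) := by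
  have h1 : ∀ n : ℕ, ((uexp b) ^ n).val = hexp (n * b) := by
    intro n
    rw [Units.val_pow_eq_pow_val]
    exact ex_pow b n
  obtain ⟨k, rfl | rfl⟩ := n.eq_nat_or_neg
  · rw [zpow_natCast, h1]; simp
  · rw [zpow_neg, zpow_natCast]
    have h2 : uexp b ^ k = uexp (k * b) := Units.ext (h1 k)
    rw [h2]
    change hexp (-(k * b)) = _
    congr 1
    push_cast
    ring

theorem evAlex_T (n : ℤ) : evAlex (T n) = ex (2 * n) := by
  rw [evAlex, eval₂_T, uexp_zpow, mul_comm]
  rfl

theorem ix_alR (f : ℤ[T;T⁻¹]) : ix (alR f) = jx (evAlex f) := by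
  have : ix.comp alR = jx.comp evAlex := by
    apply lp_ext
    intro n
    rw [RingHom.comp_apply, alR_T, map_zpow₀, ix_X, RingHom.comp_apply, evAlex_T, yx_zpow]
  exact RingHom.congr_fun this f

theorem exists_theta (f : ℤ[T;T⁻¹]) :
    ∃ g : ℤ[T;T⁻¹], alL g = eu (alL f) ∧ D (evAlex f) = 2 * evAlex g := by
  induction f using LaurentPolynomial.induction_on' with
  | add p q hp hq =>
    obtain ⟨g, h1, h2⟩ := hp
    obtain ⟨g', h1', h2'⟩ := hq
    refine ⟨g + g', ?_, ?_⟩
    · rw [map_add, map_add, eu_add, h1, h1']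
    · rw [map_add, map_add, map_add, h2, h2', mul_add]
  | C_mul_T n a =>
    refine ⟨C (n * a) * T n, ?_, ?_⟩
    · ext k
      rw [coeff_eu, coeff_alL, coeff_alL, coeff_C_mul_T', coeff_C_mul_T']
      by_cases h : n = k
      · subst h
        rw [if_pos rfl, if_pos rfl]
        push_cast
        ring
      · rw [if_neg h, if_neg h]
        simp
    · have e1 : evAlex (C a * T n) = (a : ℚ) • ex (2 * n) := by
        rw [map_C_mul_T, evAlex_T, Algebra.smul_def, map_intCast]
      have e2 : evAlex (C (n * a) * T n) = ((n * a : ℤ) : ℚ) • ex (2 * n) := by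
        rw [map_C_mul_T, evAlex_T, Algebra.smul_def, map_intCast]
      have e3 : (2 : PX) = algebraMap ℚ PX 2 := by rw [map_ofNat]
      rw [e1, e2, map_smul, D_ex, e3, ← Algebra.smul_def, smul_smul, smul_smul]
      congr 1
      push_cast
      ring

theorem alL_ne {f : ℤ[T;T⁻¹]} (hf : f ≠ 0) : alL f ≠ 0 := by
  rw [Ne, map_eq_zero_iff _ alL_inj]; exact hf

theorem ev_T2 : ev (T 2 - T (-2)) = hexp 1 - hexp (-1) := by
  rw [map_sub, ev_T, ev_T]
  have h1 : (((2 : ℤ) : ℚ) / 2) = 1 := by norm_num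
  have h2 : (((-2 : ℤ) : ℚ) / 2) = -1 := by norm_num
  rw [h1, h2]
  rfl

/-- knot data of a knot with a Melvin–Morton–Rozansky expansion -/
theorem MMR.exists_kdata {J : ℤ → ℤ[T;T⁻¹]} {Δ P : ℤ[T;T⁻¹]} (h : MMR J Δ P) :
    ∃ (K : KData) (g : ℤ[T;T⁻¹]), K.J = (fun N => (T 2 - T (-2)) * J N) ∧ Δ ≠ 0 ∧
      alL g = eu (alL Δ) ∧ K.d.1 = cot Y 1 - 2 * (alL g / alL Δ) := by
  obtain ⟨F, hF, h0, h1⟩ := h.expansion
  obtain ⟨g, hg1, hg2⟩ := exists_theta Δ
  change PowerSeries.coeff 0 F * evAlex Δ = sx 1 at h0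
  change PowerSeries.coeff 1 F * evAlex Δ ^ 3 = sx 1 * evAlex P at h1
  have hs : sx 1 ≠ 0 := sx_ne_zero one_ne_zero
  have hF0 : PowerSeries.coeff 0 F ≠ 0 := by
    intro h'; rw [h', zero_mul] at h0; exact hs h0.symm
  have hA : evAlex Δ ≠ 0 := by
    intro h'; rw [h', mul_zero] at h0; exact hs h0.symm
  have hΔ : Δ ≠ 0 := by
    rintro rfl; exact hA (map_zero _)
  have hJ : ∀ N, (T 2 - T (-2)) * J (-N) = - ((T 2 - T (-2)) * J N) := by
    intro N; rw [h.odd]; ring
  have hexp' : HasExp (fun N => (T 2 - T (-2)) * J N) F := by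
    intro N
    ext n
    rw [map_mul, ev_T2, hF N n, coeff_eps']
    apply Finset.sum_congr rfl
    intro k _
    rw [PowerSeries.coeff_rescale]
    ring
  set r : RatFunc ℚ × RatFunc ℚ :=
    (cot RatFunc.X 1 - 2 * (alR g / alR Δ), alR P / alR Δ ^ 2) with hr
  have hjA : jx (evAlex Δ) ≠ 0 := jx_ne hA
  have hjF : jx (PowerSeries.coeff 0 F) ≠ 0 := jx_ne hF0
  have rat : lamr F = Prod.map ix ix r := by
    have hd := congrArg D h0
    rw [D_mul, hg2, D_sx, one_smul] at hd
    have e0 := congrArg jx h0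
    have e1 := congrArg jx h1
    have e2 := congrArg jx hd
    simp only [map_mul, map_add, map_pow, map_ofNat] at e0 e1 e2
    have c1 : cot yx 1 = jx (cx 1) / jx (sx 1) := by
      have := cot_yx (b := 1) one_ne_zero
      simpa using this
    have hjs : jx (sx 1) ≠ 0 := jx_ne hs
    simp only [lamr, hr, Prod.map_apply, map_sub, map_mul, map_div₀, map_pow, map_cot, ix_X,
      ix_alR, map_ofNat, c1]
    rw [Prod.mk.injEq]
    constructor
    · rw [← e0]
      have : jx (D (PowerSeries.coeff 0 F)) =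
          (jx (cx 1) - jx (PowerSeries.coeff 0 F) * (2 * jx (evAlex g))) / jx (evAlex Δ) := by
        field_simp
        linear_combination e2
      rw [this]
      field_simp
    · have : jx (PowerSeries.coeff 1 F) = jx (sx 1) * jx (evAlex P) / jx (evAlex Δ) ^ 3 := by
        field_simp
        linear_combination e1
      rw [this, ← e0]
      field_simp
  refine ⟨⟨_, F, r, hJ, hexp', hF0, rat⟩, g, rfl, hΔ, hg1, ?_⟩
  simp only [KData.d, hr, Prod.map_apply, map_sub, map_mul, map_div₀, map_cot, iy_X, iy_alR,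
    map_ofNat]

/-- order of a Laurent series which is a logarithmic derivative -/
theorem coeff_zero_ld {u : L} (hu : u ≠ 0) : (ld u).coeff 0 = u.order := by
  have hU : eu u = u * ld u := by
    unfold ld
    field_simp
  have hord : ∀ j, (ld u).coeff j ≠ 0 → 0 ≤ j := by
    intro j hj
    have hj' : (ld u).order ≤ j := HahnSeries.order_le_of_coeff_ne_zero hj
    have hne : ld u ≠ 0 := by
      intro h0; rw [h0] at hj; exact hj rfl
    have hne' : eu u ≠ 0 := by
      intro h0; apply hne; unfold ld; rw [h0, zero_div]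
    have h1 : (eu u).order = u.order + (ld u).order := by
      rw [hU]
      exact HahnSeries.order_mul hu hne
    have h2 : u.order ≤ (eu u).order := by
      apply HahnSeries.order_le_of_coeff_ne_zero
      have h3 : (eu u).coeff (eu u).order ≠ 0 := by
        intro h0; exact hne' (HahnSeries.coeff_order_eq_zero.mp h0)
      intro h0
      exact h3 (by rw [coeff_eu, h0, mul_zero])
    omega
  have e2 : (u * ld u).coeff (u.order + 0) = u.coeff u.order * (ld u).coeff 0 := by
    apply coeff_mul_single'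
    intro i j hij hi hj
    have hj0 := hord j hj
    have hi0 : u.order ≤ i := HahnSeries.order_le_of_coeff_ne_zero hi
    omega
  rw [← hU, add_zero, coeff_eu] at e2
  have hG0 : u.coeff u.order ≠ 0 := fun h0 => hu (HahnSeries.coeff_order_eq_zero.mp h0)
  rw [mul_comm] at e2
  exact (mul_left_cancel₀ hG0 e2).symm

theorem gamma_of_order {Δ g : ℤ[T;T⁻¹]} (hΔ : Δ ≠ 0) (hg : alL g = eu (alL Δ)) :
    (cot Y 1 - 2 * (alL g / alL Δ)).coeff 0 = -1 - 2 * ((alL Δ).order : ℚ) := by
  have h2 : (2 : L) = cst 2 := by rw [map_ofNat]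
  rw [HahnSeries.coeff_sub, gamma_unknot, hg, h2, coeff_cst_mul]
  change -1 - 2 * (ld (alL Δ)).coeff 0 = _
  rw [coeff_zero_ld (alL_ne hΔ)]

/-- a symmetric nonconstant Laurent polynomial has negative order -/
theorem order_neg {Δ : ℤ[T;T⁻¹]} (hs : invert Δ = Δ) (hn : ∀ a : ℤ, Δ ≠ C a) :
    (alL Δ).order ≤ -1 := by
  obtain ⟨n, hn0, hn1⟩ : ∃ n : ℤ, n ≠ 0 ∧ Δ.coeff n ≠ 0 := by
    by_contra hcon
    push Not at hcon
    apply hn (Δ.coeff 0)
    apply LaurentPolynomial.ext
    intro n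
    rw [C_apply]
    split_ifs with h
    · rw [h]
    · exact hcon n h
  have hsym : ∀ n : ℤ, Δ.coeff (-n) = Δ.coeff n := by
    intro n
    have h := invert_apply Δ n
    rw [hs] at h
    exact h.symm
  have key : ∀ m : ℤ, m < 0 → Δ.coeff m ≠ 0 → (alL Δ).order ≤ -1 := by
    intro m hm hm1
    have : (alL Δ).order ≤ m := by
      apply HahnSeries.order_le_of_coeff_ne_zero
      rw [coeff_alL]
      exact_mod_cast hm1
    omega
  rcases lt_or_gt_of_ne hn0 with h | h
  · exact key n h hn1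
  · exact key (-n) (by omega) (by rw [hsym]; exact hn1)

theorem geom_T (b : ℕ) :
    ((T 1 : ℤ[T;T⁻¹]) - 1) * ∑ i ∈ Finset.range b, T (i : ℤ) = T (b : ℤ) - 1 := by
  induction b with
  | zero => simp
  | succ b ih =>
    rw [Finset.sum_range_succ, mul_add, ih, sub_mul, ← T_add, one_mul]
    push_cast
    rw [add_comm (1 : ℤ) b]
    ring

theorem noType_of_not_cableLike {Δ g : ℤ[T;T⁻¹]} (hΔ : Δ ≠ 0) (hg : alL g = eu (alL Δ))
    (hc : ¬ CableLike Δ) (P : ℕ) (b : ℤ) (hP : 2 ≤ P) (hb : b ≠ 0)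
    (hcop : IsCoprime (P : ℤ) b) :
    ¬ Supp P ((cot Y 1 - 2 * (alL g / alL Δ)) - cst b * cot Y b) := by
  intro hS
  apply hc
  set S : ℤ[T;T⁻¹] := ∑ i ∈ Finset.range b.natAbs, T (i : ℤ) with hSdef
  have hb' : (0 : ℤ) < |b| := abs_pos.mpr hb
  have hnat : ((b.natAbs : ℕ) : ℤ) = |b| := by rw [Int.abs_eq_natAbs]
  have hgeo := geom_T b.natAbs
  rw [← hSdef, hnat] at hgeo
  have hgeo' : (Y - 1) * alL S = Y ^ |b| - 1 := by
    have := congrArg alL hgeo
    rw [map_mul, map_sub, map_sub, alL_T, alL_T, map_one, zpow_one] at this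
    exact this
  have hSne : alL S ≠ 0 := by
    intro h0
    rw [h0, mul_zero] at hgeo'
    exact Y_zpow_ne_one hb'.ne' hgeo'.symm
  have hG : alL (Δ * S) ≠ 0 := by
    rw [map_mul]
    exact mul_ne_zero (alL_ne hΔ) hSne
  have l1 : ld (Y ^ |b| - 1) = ld (Y - 1) + ld (alL S) := by
    rw [← hgeo', ld_mul Y_one_sub_ne hSne]
  have l2 : ld (alL (Δ * S)) = ld (alL Δ) + ld (alL S) := by
    rw [map_mul, ld_mul (alL_ne hΔ) hSne]
  have l3 : (cot Y 1 - 2 * (alL g / alL Δ)) - cst b * cot Y b =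
      cst (((|b| : ℤ) : ℚ) - 1) - 2 * ld (alL (Δ * S)) := by
    have h1 := mul_cot_eq (b := 1) one_ne_zero
    have h2 := mul_cot_eq (b := |b|) hb'.ne'
    have h3 : cst ((1 : ℤ) : ℚ) = 1 := by simp
    rw [h3, one_mul, zpow_one] at h1
    rw [mul_cot_abs, h2, h1, l1, l2, hg, map_sub, map_one]
    change _ - 2 * ld (alL Δ) - _ = _
    ring
  have hS' : Supp P (ld (alL (Δ * S))) := by
    have h2 : cst (1 / 2) * (2 : L) = 1 := by
      rw [← map_ofNat cst 2, ← map_mul]
      norm_num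
    have : ld (alL (Δ * S)) = cst (1 / 2) * (cst (((|b| : ℤ) : ℚ) - 1) -
        ((cot Y 1 - 2 * (alL g / alL Δ)) - cst b * cot Y b)) := by
      rw [l3]
      linear_combination (-(ld (alL (Δ * S)))) * h2
    rw [this]
    exact (Supp.cst _ _).mul ((Supp.cst _ _).sub hS)
  refine ⟨P, b.natAbs, (alL (Δ * S)).order, hP, ?_, ?_, ?_⟩
  · exact Int.natAbs_pos.mpr hb
  · apply Nat.isCoprime_iff_coprime.mp
    rw [hnat]
    rcases abs_choice b with h | h
    · rw [h]; exact hcop
    · rw [h]; exact hcop.neg_right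
  · intro n hn
    apply supp_of_ld hG hS'
    rw [coeff_alL]
    exact_mod_cast hn

end

end Pool.Agent.H765.IT
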