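import Mathlib
import Pool.Agent.H765.IT.Alex

/-! Separation of iterated cables by coloured Jones polynomials. -/

namespace Pool.Agent.H765.IT

open LaurentPolynomial

noncomputable section

theorem ex_transc_gen {b : ℚ} (hb : b ≠ 0) (P : Polynomial ℚ)
    (h : Polynomial.aeval (ex b) P = 0) : P = 0 := by
  have h1 : Polynomial.aeval (ex b - 1) (P.comp (Polynomial.X + 1)) = 0 := by
    rw [Polynomial.aeval_comp]
    simpa using h
  have h2 := transc_aux (z := ex b - 1) (by
      rw [map_sub, ← PowerSeries.coeff_zero_eq_constantCoeff_apply, coeff_zero_ex]; simp) (by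
      intro h0
      have := congrArg (PowerSeries.coeff 1) h0
      rw [map_sub, coeff_ex] at this
      simp at this
      exact hb this) _ _ le_rfl h1
  have h3 : (P.comp (Polynomial.X + 1)).comp (Polynomial.X - 1) = P := by
    rw [Polynomial.comp_assoc]
    simp
  rw [← h3, h2, Polynomial.zero_comp]

theorem ev_inj : Function.Injective ev := by
  rw [injective_iff_map_eq_zero]
  intro f hf
  obtain ⟨n, g, hg⟩ := exists_T_pow f
  have h1 : ev (Polynomial.toLaurent g) = 0 := by
    rw [hg, map_mul, hf, zero_mul]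
  have h2 : Polynomial.aeval (ex (1 / 2)) (g.map (Int.castRingHom ℚ)) = 0 := by
    rw [← h1, ev, eval₂_toLaurent, Polynomial.aeval_def, Polynomial.eval₂_map]
    congr 1
    exact RingHom.ext_int _ _
  have h3 := ex_transc_gen (by norm_num) _ h2
  have h4 : g = 0 := by
    apply Polynomial.map_injective (Int.castRingHom ℚ) Int.cast_injective
    rw [h3, Polynomial.map_zero]
  rw [h4, map_zero] at hg
  rcases mul_eq_zero.mp hg.symm with h5 | h5
  · exact h5
  · exfalso
    have := (isUnit_T (R := ℤ) (n : ℤ)).ne_zero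
    exact this h5

theorem T2_ne : (T 2 - T (-2) : ℤ[T;T⁻¹]) ≠ 0 := by
  intro h
  have := congrArg ev h
  rw [ev_T2, map_zero] at this
  exact sx_ne_zero one_ne_zero this

/-- knot data of the unknot -/
def unknotK : KData where
  J := fun N => (T 2 - T (-2)) * qint N
  F := PowerSeries.C (sx 1)
  r := (cot RatFunc.X 1, 0)
  odd := by intro N; simp only [qint_neg]; ring
  exp := by
    intro N
    simp only
    rw [qint_mul, map_sub, ev_T, ev_T]
    have h1 : (((2 * N : ℤ) : ℚ) / 2) = N := by push_cast; ring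
    have h2 : (((-(2 * N) : ℤ) : ℚ) / 2) = -N := by push_cast; ring
    rw [h1, h2]
    ext n
    rw [coeff_eps', Finset.sum_range_succ']
    simp only [PowerSeries.coeff_C, Nat.add_eq_zero_iff, one_ne_zero, and_false, if_false,
      map_zero, Finset.sum_const_zero, zero_add, if_true, Nat.sub_zero]
    rw [rescale_sx, mul_one]
    rfl
  ne := by
    rw [PowerSeries.coeff_C, if_pos rfl]
    exact sx_ne_zero one_ne_zero
  rat := by
    have c1 : cot yx 1 = jx (cx 1) / jx (sx 1) := by
      have := cot_yx (b := 1) one_ne_zero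
      simpa using this
    simp only [lamr, Prod.map_apply, map_cot, ix_X, map_zero, c1]
    rw [PowerSeries.coeff_C, if_pos rfl, PowerSeries.coeff_C, if_neg one_ne_zero, D_sx, one_smul,
      map_zero, zero_div]

theorem unknotK_d : unknotK.d = (cot Y 1, 0) := by
  simp only [KData.d, unknotK, Prod.map_apply, map_cot, iy_X, map_zero]

/-- two odd solutions of a difference equation over Laurent polynomials agree -/
theorem odd_unique_lp {A B : ℤ → ℤ[T;T⁻¹]} {c : ℤ} (hA : ∀ m, A (-m) = -A m)
    (hB : ∀ m, B (-m) = -B m)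
    (h : ∀ m : ℤ, T (2 * (c * m)) * A (m + 1) - T (-(2 * (c * m))) * A (m - 1) =
      T (2 * (c * m)) * B (m + 1) - T (-(2 * (c * m))) * B (m - 1)) : A = B := by
  have e : (fun m => ev (A m)) = fun m => ev (B m) := by
    apply odd_unique (c := c)
    · intro m; rw [hA, map_neg]
    · intro m; rw [hB, map_neg]
    · intro m
      have h1 := congrArg ev (h m)
      simp only [map_sub, map_mul, ev_T] at h1
      have c1 : (((2 * (c * m) : ℤ) : ℚ) / 2) = m * c := by push_cast; ring
      have c2 : (((-(2 * (c * m)) : ℤ) : ℚ) / 2) = -(m * c) := by push_cast; ring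
      rw [c1, c2] at h1
      exact h1
  funext m
  exact ev_inj (congrFun e m)

theorem cable_swap {p : ℕ} {q : ℤ} (hq : q ≠ 0) :
    cable p q qint = cable q.natAbs (q.sign * p) qint := by
  have hodd : ∀ N : ℤ, (fun N => (T 2 - T (-2)) * qint N) (-N) =
      - ((fun N => (T 2 - T (-2)) * qint N) N) := by
    intro N; simp only [qint_neg]; ring
  have hpq : ((q.natAbs : ℕ) : ℤ) * (q.sign * p) = p * q := by
    rw [← mul_assoc, mul_comm ((q.natAbs : ℕ) : ℤ), Int.sign_mul_natAbs, mul_comm]
  have e : cable p q (fun N => (T 2 - T (-2)) * qint N) =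
      cable q.natAbs (q.sign * p) (fun N => (T 2 - T (-2)) * qint N) := by
    apply odd_unique_lp (c := p * q) (cable_neg _ _ _) (cable_neg _ _ _)
    intro m
    have h1 := cable_diff (p := p) (q := q) (J := fun N => (T 2 - T (-2)) * qint N) hodd m
    have h2 := cable_diff (p := q.natAbs) (q := q.sign * p)
      (J := fun N => (T 2 - T (-2)) * qint N) hodd m
    rw [hpq] at h2
    rw [h1, h2]
    simp only [qint_mul, mul_sub, ← T_add]
    rcases lt_or_gt_of_ne hq with h | h
    · have hn : ((q.natAbs : ℕ) : ℤ) = -q := by omega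
      rw [hn, Int.sign_eq_neg_one_of_neg h]
      have f : ∀ a b c d a' b' c' d' : ℤ[T;T⁻¹], a = d' → b = b' → c = c' → d = a' →
          a - b - (c - d) = a' - b' - (c' - d') := by
        intro a b c d a' b' c' d' h1 h2 h3 h4
        rw [h1, h2, h3, h4]
        ring
      apply f <;> congr 1 <;> ring
    · have hn : ((q.natAbs : ℕ) : ℤ) = q := by omega
      rw [hn, Int.sign_eq_one_of_pos h]
      have f : ∀ a b c d a' b' c' d' : ℤ[T;T⁻¹], a = a' → b = c' → c = b' → d = d' →
          a - b - (c - d) = a' - b' - (c' - d') := by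
        intro a b c d a' b' c' d' h1 h2 h3 h4
        rw [h1, h2, h3, h4]
        ring
      apply f <;> congr 1 <;> ring
  rw [cable_const_mul, cable_const_mul] at e
  funext N
  exact mul_left_cancel₀ T2_ne (congrFun e N)

theorem cables_append (J : ℤ → ℤ[T;T⁻¹]) (l m : List (ℕ × ℤ)) :
    cables J (l ++ m) = cables (cables J m) l := by
  simp [cables, List.foldr_append]

theorem swapRel_cables {l l' : List (ℕ × ℤ)} (ha : ∀ x ∈ l, Adm x) (h : SwapRel l l') :
    cables qint l = cables qint l' := by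
  obtain ⟨m, p, q, rfl, rfl⟩ := h
  rw [cables_append, cables_append]
  have hq : q ≠ 0 := (ha (p, q) (by simp)).2.1
  congr 1
  exact cable_swap hq

theorem ev_mul_T2 {A B : ℤ[T;T⁻¹]} (h : ev ((T 2 - T (-2)) * A) = ev ((T 2 - T (-2)) * B)) :
    A = B := mul_left_cancel₀ T2_ne (ev_inj h)

theorem nonDeg_of_pos {g : ℚ} (hg : -1 < g) {l : List (ℕ × ℤ)} (ha : ∀ x ∈ l, Adm x) :
    NonDeg g l := by
  intro x hx
  have hx' : x ∈ l := List.mem_of_getLast? hx
  have h1 : (1 : ℚ) ≤ ((|x.2| : ℤ) : ℚ) := by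
    exact_mod_cast Int.one_le_abs (ha x hx').2.1
  linarith

/-- Iterated torus knots. -/
theorem torus_main (l l' : List (ℕ × ℤ)) (ha : ∀ x ∈ l, Adm x) (ha' : ∀ x ∈ l', Adm x)
    (hl : ∀ x ∈ l.getLast?, 2 ≤ |x.2|) (hl' : ∀ x ∈ l'.getLast?, 2 ≤ |x.2|) :
    (∀ N : ℤ, cables qint l N = cables qint l' N) ↔ (l = l' ∨ SwapRel l l') := by
  constructor
  · intro h
    have hd : unknotK.d.1.coeff 0 = -1 := by rw [unknotK_d, gamma_unknot]
    have nd : ∀ l : List (ℕ × ℤ), (∀ x ∈ l.getLast?, 2 ≤ |x.2|) →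
        NonDeg (unknotK.d.1.coeff 0) l := by
      intro l hl x hx
      rw [hd]
      have h1 : (2 : ℚ) ≤ ((|x.2| : ℤ) : ℚ) := by exact_mod_cast hl x hx
      linarith
    have he : ∀ N : ℤ, ev (cables unknotK.J l N) = ev (cables unknotK.J l' N) := by
      intro N
      have e1 := congrFun (cables_const_mul (T 2 - T (-2)) qint l) N
      have e2 := congrFun (cables_const_mul (T 2 - T (-2)) qint l') N
      change ev (cables (fun N => (T 2 - T (-2)) * qint N) l N) =
        ev (cables (fun N => (T 2 - T (-2)) * qint N) l' N)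
      rw [e1, e2, h N]
    rcases pair_aux unknotK unknotK (Or.inl unknotK_d) (Or.inl unknotK_d) (by rw [hd])
      (by rw [hd]) l l' ha ha' (nd l hl) (nd l' hl') he with ⟨h1, _⟩ | ⟨_, _, h1⟩
    · exact Or.inl h1
    · exact Or.inr h1
  · rintro (rfl | h)
    · intro N; rfl
    · intro N; rw [swapRel_cables ha h]

/-- Iterated cables of a fixed knot with nonconstant Alexander polynomial. -/
theorem fixed_main {J : ℤ → ℤ[T;T⁻¹]} {Δ P : ℤ[T;T⁻¹]} (h : MMR J Δ P)
    (hΔ : ∀ a : ℤ, Δ ≠ C a) (l l' : List (ℕ × ℤ)) (ha : ∀ x ∈ l, Adm x)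
    (ha' : ∀ x ∈ l', Adm x) :
    (∀ N : ℤ, cables J l N = cables J l' N) ↔ l = l' := by
  constructor
  · intro he
    obtain ⟨K, g, hKJ, hne, hg, hd⟩ := h.exists_kdata
    have hgam : 1 ≤ K.d.1.coeff 0 := by
      rw [hd, gamma_of_order hne hg]
      have := order_neg h.symm hΔ
      have h2 : (((alL Δ).order : ℤ) : ℚ) ≤ -1 := by exact_mod_cast this
      linarith
    have hev : ∀ N : ℤ, ev (cables K.J l N) = ev (cables K.J l' N) := by
      intro N
      rw [hKJ, cables_const_mul, cables_const_mul]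
      simp only [he N]
    have hdata := K.data_eq K l l' (fun x hx => ⟨by have := (ha x hx).1; omega, (ha x hx).2.1⟩)
      (fun x hx => ⟨by have := (ha' x hx).1; omega, (ha' x hx).2.1⟩) hev
    rcases dataL_injective (d0 := K.d) rfl (by linarith) l l' ha ha'
      (nonDeg_of_pos (by linarith) ha) (nonDeg_of_pos (by linarith) ha') hdata with h1 | ⟨h1, _⟩
    · exact h1
    · exfalso; linarith
  · rintro rfl N; rfl

theorem C_cableLike (a : ℤ) : CableLike (C a : ℤ[T;T⁻¹]) := by
  refine ⟨2, 1, 0, le_rfl, le_rfl, by decide, ?_⟩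
  intro n hn
  rw [Finset.sum_range_one] at hn
  have h1 := coeff_C_mul_T' a ((0 : ℕ) : ℤ) n
  rw [h1] at hn
  split_ifs at hn with h
  · rw [← h]; simp
  · exact absurd rfl hn

/-- Iterated cables of two knots whose Alexander polynomials are not of cable shape. -/
theorem pair_main {J J' : ℤ → ℤ[T;T⁻¹]} {Δ Δ' P P' : ℤ[T;T⁻¹]} (h : MMR J Δ P)
    (h' : MMR J' Δ' P') (hc : ¬ CableLike Δ) (hc' : ¬ CableLike Δ') (l l' : List (ℕ × ℤ))
    (ha : ∀ x ∈ l, Adm x) (ha' : ∀ x ∈ l', Adm x) :
    (∀ N : ℤ, cables J l N = cables J' l' N) ↔ (l = l' ∧ ∀ N : ℤ, J N = J' N) := by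
  constructor
  · intro he
    obtain ⟨K, g, hKJ, hne, hg, hd⟩ := h.exists_kdata
    obtain ⟨K', g', hKJ', hne', hg', hd'⟩ := h'.exists_kdata
    have gam : ∀ {Δ g : ℤ[T;T⁻¹]} {K : KData}, invert Δ = Δ → Δ ≠ 0 → ¬ CableLike Δ →
        alL g = eu (alL Δ) → K.d.1 = cot Y 1 - 2 * (alL g / alL Δ) → 1 ≤ K.d.1.coeff 0 := by
      intro Δ g K hs hne hc hg hd
      rw [hd, gamma_of_order hne hg]
      have := order_neg hs (fun a h0 => hc (by rw [h0]; exact C_cableLike a))
      have h2 : (((alL Δ).order : ℤ) : ℚ) ≤ -1 := by exact_mod_cast this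
      linarith
    have g1 := gam h.symm hne hc hg hd
    have g1' := gam h'.symm hne' hc' hg' hd'
    have b1 : Base K.d := by
      right
      intro P b hP hb hcop hS
      rw [hd] at hS
      exact noType_of_not_cableLike hne hg hc P b hP hb hcop hS
    have b1' : Base K'.d := by
      right
      intro P b hP hb hcop hS
      rw [hd'] at hS
      exact noType_of_not_cableLike hne' hg' hc' P b hP hb hcop hS
    have hev : ∀ N : ℤ, ev (cables K.J l N) = ev (cables K'.J l' N) := by
      intro N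
      rw [hKJ, hKJ', cables_const_mul, cables_const_mul]
      simp only [he N]
    rcases pair_aux K K' b1 b1' (by linarith) (by linarith) l l' ha ha'
      (nonDeg_of_pos (by linarith) ha) (nonDeg_of_pos (by linarith) ha') hev with
      ⟨h1, h2⟩ | ⟨h1, _, _⟩
    · refine ⟨h1, fun N => ?_⟩
      have := h2 N
      rw [hKJ, hKJ'] at this
      exact ev_mul_T2 this
    · exfalso
      rw [h1, gamma_unknot] at g1
      linarith
  · rintro ⟨rfl, h2⟩ N
    have : J = J' := funext h2
    rw [this]

end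

end Pool.Agent.H765.IT
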