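import Mathlib
import Pool.Agent.H765.IT.Final1

/-! Coefficientwise form of the separation theorems. -/

namespace Pool.Agent.H765.IT

open LaurentPolynomial

noncomputable section

theorem cables_odd {J : ℤ → ℤ[T;T⁻¹]} (hJ : ∀ N, J (-N) = - J N) (l : List (ℕ × ℤ)) :
    ∀ N, cables J l (-N) = - cables J l N := by
  cases l with
  | nil => exact hJ
  | cons x t => exact fun N => cable_neg _ _ _ N

theorem eq_iff_vass {A B : ℤ → ℤ[T;T⁻¹]} (hA : ∀ N, A (-N) = - A N)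
    (hB : ∀ N, B (-N) = - B N) :
    (∀ N n : ℕ, vass A N n = vass B N n) ↔ ∀ N : ℤ, A N = B N := by
  constructor
  · intro h
    have h1 : ∀ N : ℕ, A N = B N := fun N => ev_inj (PowerSeries.ext fun n => h N n)
    intro N
    obtain ⟨k, rfl | rfl⟩ := N.eq_nat_or_neg
    · exact h1 k
    · rw [hA, hB, h1]
  · intro h N n
    rw [vass, vass, h]

theorem qint_odd (N : ℤ) : qint (-N) = - qint N := qint_neg N

theorem not_swapRel {l l' : List (ℕ × ℤ)} (hl : ∀ x ∈ l.getLast?, (x.1 : ℤ) < |x.2|)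
    (hl' : ∀ x ∈ l'.getLast?, (x.1 : ℤ) < |x.2|) : ¬ SwapRel l l' := by
  rintro ⟨m, p, q, rfl, rfl⟩
  have h1 := hl (p, q) (by simp)
  have h2 := hl' (q.natAbs, q.sign * p) (by simp)
  simp only at h1 h2
  rw [abs_mul] at h2
  have h3 : |q.sign| ≤ 1 := by
    rcases lt_trichotomy q 0 with h | h | h
    · rw [Int.sign_eq_neg_one_of_neg h]; simp
    · rw [h]; simp
    · rw [Int.sign_eq_one_of_pos h]; simp
  have h4 : |q.sign| * |(p : ℤ)| ≤ 1 * |(p : ℤ)| := by gcongr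
  have h5 : |(p : ℤ)| = p := abs_of_nonneg (by positivity)
  have h6 : ((q.natAbs : ℕ) : ℤ) = |q| := by rw [Int.abs_eq_natAbs]
  omega

/-- Iterated torus knots, normal form. -/
theorem torus_final (l l' : List (ℕ × ℤ)) (ha : ∀ x ∈ l, 2 ≤ x.1 ∧ IsCoprime (x.1 : ℤ) x.2)
    (ha' : ∀ x ∈ l', 2 ≤ x.1 ∧ IsCoprime (x.1 : ℤ) x.2)
    (hl : ∀ x ∈ l.getLast?, (x.1 : ℤ) < |x.2|) (hl' : ∀ x ∈ l'.getLast?, (x.1 : ℤ) < |x.2|) :
    (∀ N n : ℕ, vass (cables qint l) N n = vass (cables qint l') N n) ↔ l = l' := by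
  have adm : ∀ {l : List (ℕ × ℤ)}, (∀ x ∈ l, 2 ≤ x.1 ∧ IsCoprime (x.1 : ℤ) x.2) →
      ∀ x ∈ l, Adm x := by
    intro l h x hx
    obtain ⟨h1, h2⟩ := h x hx
    refine ⟨h1, ?_, h2⟩
    intro h0
    rw [h0, isCoprime_zero_right, Int.isUnit_iff] at h2
    omega
  rw [eq_iff_vass (cables_odd qint_odd l) (cables_odd qint_odd l'),
    torus_main l l' (adm ha) (adm ha')]
  · constructor
    · rintro (h | h)
      · exact h
      · exact absurd h (not_swapRel hl hl')
    · exact Or.inl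
  · intro x hx
    have := hl x hx
    have := (ha x (List.mem_of_getLast? hx)).1
    omega
  · intro x hx
    have := hl' x hx
    have := (ha' x (List.mem_of_getLast? hx)).1
    omega

end

end Pool.Agent.H765.IT
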